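import Pool.Agent.Lib.MP_2306a6_an.Disc

/-!
# The bound for the second order term of a self-map of the ball
-/

namespace Pool.Agent.Lib.MP_2306a6_an

open Metric Set Filter Topology

section comp

variable {E F : Type*} [NormedAddCommGroup E] [NormedSpace ℂ E] [FiniteDimensional ℂ E]
  [NormedAddCommGroup F] [NormedSpace ℂ F] [CompleteSpace F]

/-- The derivative of a holomorphic map is holomorphic. -/
lemma differentiableOn_fderiv {f : E → F} {U : Set E} (hU : IsOpen U)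
    (hf : DifferentiableOn ℂ f U) : DifferentiableOn ℂ (fderiv ℂ f) U := by
  have h2 : ContDiffOn ℂ ((1 : WithTop ℕ∞) + 1) f U := by
    have := contDiffOn_of_differentiableOn hU 2 hf
    norm_num
    exact_mod_cast this
  rw [contDiffOn_succ_iff_fderiv_of_isOpen hU] at h2
  exact h2.2.2.differentiableOn (by simp)

/-- Second derivative along a holomorphic curve. -/
lemma hasDerivAt_deriv_comp {v : E → F} {U : Set E} (hU : IsOpen U) (hv : DifferentiableOn ℂ v U)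
    {Φ : ℂ → E} {O : Set ℂ} (hO : IsOpen O) (h0 : (0 : ℂ) ∈ O) (hΦ : DifferentiableOn ℂ Φ O)
    (hmaps : MapsTo Φ O U) :
    HasDerivAt (deriv (fun ζ => v (Φ ζ)))
      (fderiv ℂ (fderiv ℂ v) (Φ 0) (deriv Φ 0) (deriv Φ 0) +
        fderiv ℂ v (Φ 0) (deriv (deriv Φ) 0)) 0 := by
  have : CompleteSpace E := FiniteDimensional.complete ℂ E
  have h1 : deriv (fun ζ => v (Φ ζ)) =ᶠ[𝓝 0] fun ζ => fderiv ℂ v (Φ ζ) (deriv Φ ζ) := by
    filter_upwards [hO.mem_nhds h0] with ζ hζ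
    have h2 : HasFDerivAt v (fderiv ℂ v (Φ ζ)) (Φ ζ) :=
      ((hv _ (hmaps hζ)).differentiableAt (hU.mem_nhds (hmaps hζ))).hasFDerivAt
    have h3 : HasDerivAt Φ (deriv Φ ζ) ζ :=
      ((hΦ ζ hζ).differentiableAt (hO.mem_nhds hζ)).hasDerivAt
    exact (h2.comp_hasDerivAt ζ h3).deriv
  refine HasDerivAt.congr_of_eventuallyEq ?_ h1
  have h4 : HasFDerivAt (fderiv ℂ v) (fderiv ℂ (fderiv ℂ v) (Φ 0)) (Φ 0) :=
    ((differentiableOn_fderiv hU hv _ (hmaps h0)).differentiableAt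
      (hU.mem_nhds (hmaps h0))).hasFDerivAt
  have h5 : HasDerivAt Φ (deriv Φ 0) 0 := ((hΦ 0 h0).differentiableAt (hO.mem_nhds h0)).hasDerivAt
  have h6 : HasDerivAt (fun ζ => fderiv ℂ v (Φ ζ))
      (fderiv ℂ (fderiv ℂ v) (Φ 0) (deriv Φ 0)) 0 := h4.comp_hasDerivAt 0 h5
  have h7 : HasDerivAt (deriv Φ) (deriv (deriv Φ) 0) 0 :=
    ((hΦ.deriv hO 0 h0).differentiableAt (hO.mem_nhds h0)).hasDerivAt
  exact h6.clm_apply h7

end comp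

section phi

variable {E : Type} [NormedAddCommGroup E] [InnerProductSpace ℂ E]

/-- The choice of the denominator. -/
lemma exists_den {c : ℂ} (hc2 : ‖c‖ ^ 2 ≤ 2) : ∃ (d0 : ℝ) (d1 : ℂ), 1 < d0 ∧ d0 ≤ Real.sqrt 3 ∧
    (d0 : ℂ) * d1 = c ∧ ‖d1‖ ^ 2 = 3 - d0 ^ 2 ∧ ‖d1‖ ≤ 1 := by
  set s : ℝ := Real.sqrt (9 - 4 * ‖c‖ ^ 2) with hs
  have hss : s ^ 2 = 9 - 4 * ‖c‖ ^ 2 := Real.sq_sqrt (by linarith)
  have hs0 : 0 ≤ s := Real.sqrt_nonneg _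
  have hs1 : 1 ≤ s := by
    rw [hs]
    apply Real.le_sqrt_of_sq_le
    linarith
  have hs3 : s ≤ 3 := by
    nlinarith [sq_nonneg ‖c‖]
  set d0 : ℝ := Real.sqrt ((3 + s) / 2) with hd0
  have hd02 : d0 ^ 2 = (3 + s) / 2 := Real.sq_sqrt (by linarith)
  have hd0pos : 0 < d0 := Real.sqrt_pos.2 (by linarith)
  have hd0le : d0 ≤ Real.sqrt 3 := Real.sqrt_le_sqrt (by linarith)
  have hd0ge : 1 < d0 := by nlinarith
  have hd0C : (d0 : ℂ) ≠ 0 := by exact_mod_cast hd0pos.ne'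
  have hd12 : ‖c / d0‖ ^ 2 = 3 - d0 ^ 2 := by
    rw [norm_div, Complex.norm_real, Real.norm_of_nonneg hd0pos.le, div_pow,
      div_eq_iff (by positivity), hd02]
    nlinarith
  refine ⟨d0, c / d0, hd0ge, hd0le, by field_simp, hd12, ?_⟩
  nlinarith [norm_nonneg (c / d0)]

/-- The denominator `D(ζ) = d₀ + d₁ ζ`. -/
def den (d0 : ℝ) (d1 ζ : ℂ) : ℂ := d0 + d1 * ζ

/-- The disc `Φ(ζ) = ζ (A + ζ w) / D(ζ)`. -/
noncomputable def disc (d0 : ℝ) (d1 : ℂ) (A w : E) (ζ : ℂ) : E := (ζ / den d0 d1 ζ) • (A + ζ • w)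

variable {d0 : ℝ} {d1 : ℂ} {A w : E}

lemma den_ne {ζ : ℂ} (h1 : 1 < d0) (h2 : ‖d1‖ ≤ 1) (hζ : ‖ζ‖ < 1) : den d0 d1 ζ ≠ 0 := by
  intro h
  have h3 : (d0 : ℂ) = -(d1 * ζ) := eq_neg_of_add_eq_zero_left h
  have h4 : ‖(d0 : ℂ)‖ = ‖d1‖ * ‖ζ‖ := by rw [h3, norm_neg, norm_mul]
  rw [Complex.norm_real, Real.norm_of_nonneg (by linarith)] at h4
  nlinarith [norm_nonneg d1, norm_nonneg ζ]

lemma norm_den_sq {c : ℂ} (hc : (d0 : ℂ) * d1 = c) (h : ‖d1‖ ^ 2 = 3 - d0 ^ 2) (ζ : ℂ) :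
    ‖den d0 d1 ζ‖ ^ 2 = d0 ^ 2 + 2 * (ζ * c).re + (3 - d0 ^ 2) * ‖ζ‖ ^ 2 := by
  have h1 : ‖den d0 d1 ζ‖ ^ 2 = d0 ^ 2 + 2 * ((d0 : ℂ) * (d1 * ζ)).re + ‖d1 * ζ‖ ^ 2 := by
    rw [den]
    simp only [← Complex.normSq_eq_norm_sq, Complex.normSq_apply, Complex.add_re,
      Complex.add_im, Complex.ofReal_re, Complex.ofReal_im, Complex.re_ofReal_mul]
    ring
  rw [h1, norm_mul, mul_pow, h, ← mul_assoc, hc, mul_comm c ζ]

lemma norm_num_sq (hA : ‖A‖ ^ 2 = 2) (hw : ‖w‖ = 1) (ζ : ℂ) :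
    ‖A + ζ • w‖ ^ 2 = 2 + 2 * (ζ * inner ℂ A w).re + ‖ζ‖ ^ 2 := by
  rw [norm_add_sq (𝕜 := ℂ), inner_smul_right, hA, norm_smul, hw, mul_one]
  rfl

lemma norm_num_le_den (hA : ‖A‖ ^ 2 = 2) (hw : ‖w‖ = 1) (h1 : 1 < d0)
    (hc : (d0 : ℂ) * d1 = inner ℂ A w) (h : ‖d1‖ ^ 2 = 3 - d0 ^ 2) (h2 : ‖d1‖ ≤ 1)
    {ζ : ℂ} (hζ : ‖ζ‖ < 1) : ‖A + ζ • w‖ ≤ ‖den d0 d1 ζ‖ := by
  apply le_of_sq_le_sq _ (norm_nonneg _)
  rw [norm_num_sq hA hw, norm_den_sq hc h]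
  have h3 : ‖ζ‖ ^ 2 ≤ 1 := by nlinarith [norm_nonneg ζ]
  have h4 : 2 ≤ d0 ^ 2 := by nlinarith [norm_nonneg d1]
  nlinarith

lemma norm_disc_le (hA : ‖A‖ ^ 2 = 2) (hw : ‖w‖ = 1) (h1 : 1 < d0)
    (hc : (d0 : ℂ) * d1 = inner ℂ A w) (h : ‖d1‖ ^ 2 = 3 - d0 ^ 2) (h2 : ‖d1‖ ≤ 1)
    {ζ : ℂ} (hζ : ‖ζ‖ < 1) : ‖disc d0 d1 A w ζ‖ ≤ ‖ζ‖ := by
  have h3 : 0 < ‖den d0 d1 ζ‖ := norm_pos_iff.2 (den_ne h1 h2 hζ)
  rw [disc, norm_smul, norm_div, div_mul_eq_mul_div, div_le_iff₀ h3]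
  exact mul_le_mul_of_nonneg_left (norm_num_le_den hA hw h1 hc h h2 hζ) (norm_nonneg _)

lemma hasDerivAt_den (ζ : ℂ) : HasDerivAt (den d0 d1) d1 ζ := by
  have h := ((hasDerivAt_id ζ).const_mul d1).const_add (d0 : ℂ)
  rw [mul_one] at h
  exact h

lemma hasDerivAt_quot {ζ : ℂ} (hζ : den d0 d1 ζ ≠ 0) :
    HasDerivAt (fun ζ => ζ / den d0 d1 ζ) (d0 / (den d0 d1 ζ) ^ 2) ζ := by
  have h1 := (hasDerivAt_id ζ).div (hasDerivAt_den (d0 := d0) (d1 := d1) ζ) hζ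
  have h2 : (1 * den d0 d1 ζ - id ζ * d1) / den d0 d1 ζ ^ 2 = d0 / (den d0 d1 ζ) ^ 2 := by
    congr 1
    rw [den, id]
    ring
  rw [h2] at h1
  exact h1

lemma hasDerivAt_num (ζ : ℂ) : HasDerivAt (fun ζ : ℂ => A + ζ • w) w ζ := by
  have h := ((hasDerivAt_id ζ).smul_const w).const_add A
  rw [one_smul] at h
  exact h

lemma hasDerivAt_disc {ζ : ℂ} (hζ : den d0 d1 ζ ≠ 0) :
    HasDerivAt (disc d0 d1 A w) ((ζ / den d0 d1 ζ) • w +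
      (d0 / (den d0 d1 ζ) ^ 2) • (A + ζ • w)) ζ :=
  (hasDerivAt_quot hζ).smul (hasDerivAt_num ζ)

lemma den_zero : den d0 d1 0 = d0 := by simp [den]

lemma disc_zero : disc d0 d1 A w 0 = 0 := by simp [disc]

lemma deriv_disc_zero (h1 : 1 < d0) (h2 : ‖d1‖ ≤ 1) :
    deriv (disc d0 d1 A w) 0 = ((d0 : ℂ)⁻¹) • A := by
  have hd0C : (d0 : ℂ) ≠ 0 := by exact_mod_cast (show d0 ≠ 0 by linarith)
  rw [(hasDerivAt_disc (den_ne h1 h2 (by simp))).deriv, den_zero, zero_div, zero_smul,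
    zero_add, add_zero]
  congr 1
  field_simp

lemma deriv_deriv_disc_zero (h1 : 1 < d0) (h2 : ‖d1‖ ≤ 1) :
    deriv (deriv (disc d0 d1 A w)) 0 = (-2 * d1 / d0 ^ 2) • A + (2 / d0 : ℂ) • w := by
  have hd0C : (d0 : ℂ) ≠ 0 := by exact_mod_cast (show d0 ≠ 0 by linarith)
  have hball0 : (0 : ℂ) ∈ ball (0 : ℂ) 1 := mem_ball_self one_pos
  have h0 : den d0 d1 0 ≠ 0 := by rwa [den_zero]
  have h3 : deriv (disc d0 d1 A w) =ᶠ[𝓝 0] fun ζ => (ζ / den d0 d1 ζ) • w +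
      (d0 / (den d0 d1 ζ) ^ 2) • (A + ζ • w) := by
    filter_upwards [isOpen_ball.mem_nhds hball0] with ζ hζ
    exact (hasDerivAt_disc (den_ne h1 h2 (by simpa using hζ))).deriv
  rw [h3.deriv_eq]
  have h4 : HasDerivAt (fun ζ => (d0 : ℂ) / (den d0 d1 ζ) ^ 2) (-2 * d1 / d0 ^ 2) 0 := by
    have h5 := (hasDerivAt_const (0 : ℂ) (d0 : ℂ)).div
      ((hasDerivAt_den (d0 := d0) (d1 := d1) 0).fun_pow 2) (pow_ne_zero 2 h0)
    refine h5.congr_deriv ?_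
    rw [den_zero]
    field_simp
    ring
  have h5 := ((hasDerivAt_quot h0).smul_const w).add (h4.smul (hasDerivAt_num (A := A) (w := w) 0))
  have h6 : deriv (fun ζ => (ζ / den d0 d1 ζ) • w +
      (d0 / (den d0 d1 ζ) ^ 2) • (A + ζ • w)) 0 = _ := h5.deriv
  rw [h6, den_zero, zero_smul, add_zero]
  have h7 : (d0 : ℂ) / (d0 : ℂ) ^ 2 = (d0 : ℂ)⁻¹ := by field_simp
  rw [h7]
  have h8 : (2 / d0 : ℂ) = (d0 : ℂ)⁻¹ + (d0 : ℂ)⁻¹ := by field_simp; norm_num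
  rw [h8, add_smul]
  abel

lemma disc_identity {D ζ : ℂ} (hD : D ≠ 0) (x : E) :
    (starRingEnd ℂ) ζ * (D * inner ℂ A x) + (starRingEnd ℂ) ζ ^ 2 * (D * inner ℂ w x) =
      ((‖D‖ ^ 2 : ℝ) : ℂ) * inner ℂ ((ζ / D) • (A + ζ • w)) x := by
  have h2 : ((‖D‖ ^ 2 : ℝ) : ℂ) = D * (starRingEnd ℂ) D := by
    rw [Complex.mul_conj, Complex.normSq_eq_norm_sq]
  have h3 : (starRingEnd ℂ) D ≠ 0 := by
    rwa [Ne, map_eq_zero]
  rw [h2, inner_smul_left, inner_add_left, inner_smul_left, map_div₀]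
  generalize (starRingEnd ℂ) D = D' at *
  generalize (starRingEnd ℂ) ζ = ζ' at *
  generalize (inner ℂ A x : ℂ) = p
  generalize (inner ℂ w x : ℂ) = q
  field_simp

end phi

section bound

variable {E : Type} [NormedAddCommGroup E] [InnerProductSpace ℂ E]

/-- The pointwise inequality which is averaged. -/
lemma pointwise_ineq {v : E → E} (hv : DifferentiableOn ℂ v (ball 0 1))
    (hmaps : MapsTo v (ball 0 1) (closedBall 0 1)) (h0 : v 0 = 0) {d0 : ℝ} {d1 : ℂ} {A w : E}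
    (hA : ‖A‖ ^ 2 = 2) (hw : ‖w‖ = 1) (h1 : 1 < d0)
    (hc : (d0 : ℂ) * d1 = inner ℂ A w) (h : ‖d1‖ ^ 2 = 3 - d0 ^ 2) (h2 : ‖d1‖ ≤ 1)
    {ζ : ℂ} (hζ : ‖ζ‖ < 1) :
    ((starRingEnd ℂ) ζ * (den d0 d1 ζ * inner ℂ A (v (disc d0 d1 A w ζ))) +
      (starRingEnd ℂ) ζ ^ 2 * (den d0 d1 ζ * inner ℂ w (v (disc d0 d1 A w ζ)))).re ≤
      ‖ζ‖ ^ 2 * (2 + 2 * (ζ * inner ℂ A w).re + ‖ζ‖ ^ 2) := by
  have hDζ := den_ne h1 h2 hζ
  rw [disc_identity hDζ, Complex.re_ofReal_mul, ← norm_num_sq hA hw]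
  change ‖den d0 d1 ζ‖ ^ 2 * (inner ℂ (disc d0 d1 A w ζ) (v (disc d0 d1 A w ζ))).re ≤ _
  have h5 : ‖disc d0 d1 A w ζ‖ < 1 := (norm_disc_le hA hw h1 hc h h2 hζ).trans_lt hζ
  have h4 : ‖v (disc d0 d1 A w ζ)‖ ≤ ‖disc d0 d1 A w ζ‖ :=
    Complex.norm_le_norm_of_mapsTo_ball hv hmaps h0 h5
  have h6 : (inner ℂ (disc d0 d1 A w ζ) (v (disc d0 d1 A w ζ))).re ≤ ‖disc d0 d1 A w ζ‖ ^ 2 := by
    calc (inner ℂ (disc d0 d1 A w ζ) (v (disc d0 d1 A w ζ))).re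
        ≤ ‖(inner ℂ (disc d0 d1 A w ζ) (v (disc d0 d1 A w ζ)) : ℂ)‖ := Complex.re_le_norm _
      _ ≤ ‖disc d0 d1 A w ζ‖ * ‖v (disc d0 d1 A w ζ)‖ := norm_inner_le_norm _ _
      _ ≤ ‖disc d0 d1 A w ζ‖ ^ 2 := by
        rw [pow_two]
        exact mul_le_mul_of_nonneg_left h4 (norm_nonneg _)
  have h7 : ‖den d0 d1 ζ‖ ^ 2 * ‖disc d0 d1 A w ζ‖ ^ 2 = ‖ζ‖ ^ 2 * ‖A + ζ • w‖ ^ 2 := by
    have h8 : ‖den d0 d1 ζ‖ ≠ 0 := norm_ne_zero_iff.2 hDζ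
    rw [disc, norm_smul, norm_div]
    field_simp
  rw [← h7]
  exact mul_le_mul_of_nonneg_left h6 (by positivity)

/-- The derivative at the origin of the composition with the disc. -/
lemma deriv_comp_disc {v : E → E} (hv : DifferentiableOn ℂ v (ball 0 1)) {lam : ℝ}
    (hlam : fderiv ℂ v 0 = (lam : ℂ) • ContinuousLinearMap.id ℂ E) {d0 : ℝ} {d1 : ℂ} {A w : E}
    (h1 : 1 < d0) (h2 : ‖d1‖ ≤ 1) :
    deriv (fun ζ => v (disc d0 d1 A w ζ)) 0 = ((lam : ℂ) * (d0 : ℂ)⁻¹) • A := by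
  have hv0 : HasFDerivAt v (fderiv ℂ v 0) 0 :=
    ((hv 0 (mem_ball_self one_pos)).differentiableAt (ball_mem_nhds 0 one_pos)).hasFDerivAt
  have h3 : HasFDerivAt v (fderiv ℂ v 0) (disc d0 d1 A w 0) := by rwa [disc_zero]
  have hd : HasDerivAt (disc d0 d1 A w) (deriv (disc d0 d1 A w) 0) 0 :=
    (hasDerivAt_disc (den_ne h1 h2 (by simp))).differentiableAt.hasDerivAt
  have h4 : deriv (fun ζ => v (disc d0 d1 A w ζ)) 0 = fderiv ℂ v 0 (deriv (disc d0 d1 A w) 0) :=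
    (h3.comp_hasDerivAt (0 : ℂ) hd).deriv
  rw [h4, hlam, deriv_disc_zero h1 h2]
  simp only [FunLike.coe_smul, Pi.smul_apply, ContinuousLinearMap.coe_id', id_eq]
  rw [smul_smul]

variable [FiniteDimensional ℂ E]

/-- The second derivative at the origin of the composition with the disc. -/
lemma hasDerivAt_deriv_comp_disc {v : E → E} (hv : DifferentiableOn ℂ v (ball 0 1)) {lam : ℝ}
    (hlam : fderiv ℂ v 0 = (lam : ℂ) • ContinuousLinearMap.id ℂ E) {d0 : ℝ} {d1 : ℂ} {A w u : E}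
    (hu : A = ((Real.sqrt 2 : ℝ) : ℂ) • u)
    (h1 : 1 < d0) (h2 : ‖d1‖ ≤ 1) (hmaps : MapsTo (disc d0 d1 A w) (ball 0 1) (ball 0 1)) :
    HasDerivAt (deriv (fun ζ => v (disc d0 d1 A w ζ))) ((2 / (d0 : ℂ) ^ 2) •
      fderiv ℂ (fderiv ℂ v) 0 u u + (lam : ℂ) •
      ((-2 * d1 / d0 ^ 2) • A + (2 / d0 : ℂ) • w)) 0 := by
  have hd0C : (d0 : ℂ) ≠ 0 := by exact_mod_cast (show d0 ≠ 0 by linarith)
  have hdiff : DifferentiableOn ℂ (disc d0 d1 A w) (ball 0 1) := fun ζ hζ =>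
    (hasDerivAt_disc (den_ne h1 h2 (by simpa using hζ))).differentiableAt.differentiableWithinAt
  have h3 := hasDerivAt_deriv_comp isOpen_ball hv isOpen_ball (mem_ball_self one_pos) hdiff hmaps
  refine h3.congr_deriv ?_
  rw [disc_zero, deriv_disc_zero h1 h2, deriv_deriv_disc_zero h1 h2, hlam]
  have h4 : ((Real.sqrt 2 : ℝ) : ℂ) * ((Real.sqrt 2 : ℝ) : ℂ) = 2 := by
    rw [← Complex.ofReal_mul, Real.mul_self_sqrt (by norm_num)]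
    norm_num
  have h5 : ((lam : ℂ) • ContinuousLinearMap.id ℂ E) ((-2 * d1 / d0 ^ 2) • A + (2 / d0 : ℂ) • w) =
      (lam : ℂ) • ((-2 * d1 / d0 ^ 2) • A + (2 / d0 : ℂ) • w) := rfl
  rw [h5]
  congr 1
  rw [hu, smul_smul, map_smul, map_smul]
  change ((d0 : ℂ)⁻¹ * ((Real.sqrt 2 : ℝ) : ℂ)) • (((d0 : ℂ)⁻¹ * ((Real.sqrt 2 : ℝ) : ℂ)) •
    fderiv ℂ (fderiv ℂ v) 0 u u) = _
  rw [smul_smul]
  congr 1
  field_simp
  linear_combination h4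

/-- The key estimate: the second derivative at the origin of a self-map of the ball. -/
theorem re_inner_second_le {v : E → E} (hv : DifferentiableOn ℂ v (ball 0 1))
    (hmaps : MapsTo v (ball 0 1) (closedBall 0 1)) (h0 : v 0 = 0) {lam : ℝ}
    (hlam : fderiv ℂ v 0 = (lam : ℂ) • ContinuousLinearMap.id ℂ E) (hlam1 : lam ≤ 1)
    {u w : E} (hu : ‖u‖ = 1) (hw : ‖w‖ = 1) :
    (inner ℂ w (fderiv ℂ (fderiv ℂ v) 0 u u)).re ≤ 3 * Real.sqrt 3 * (1 - lam) := by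
  have hcomp : CompleteSpace E := FiniteDimensional.complete ℂ E
  obtain ⟨A, hAu⟩ : ∃ A : E, A = ((Real.sqrt 2 : ℝ) : ℂ) • u := ⟨_, rfl⟩
  have hA2 : ‖A‖ ^ 2 = 2 := by
    rw [hAu, norm_smul, Complex.norm_real, Real.norm_of_nonneg (Real.sqrt_nonneg _), hu, mul_one,
      Real.sq_sqrt (by norm_num)]
  have hc2 : ‖(inner ℂ A w : ℂ)‖ ^ 2 ≤ 2 := by
    have h1 : ‖(inner ℂ A w : ℂ)‖ ≤ ‖A‖ * ‖w‖ := norm_inner_le_norm A w
    rw [hw, mul_one] at h1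
    calc ‖(inner ℂ A w : ℂ)‖ ^ 2 ≤ ‖A‖ ^ 2 := pow_le_pow_left₀ (norm_nonneg _) h1 2
      _ = 2 := hA2
  obtain ⟨d0, d1, h1, hd0le, hc, h, h2⟩ := exists_den hc2
  have hd0pos : 0 < d0 := by linarith
  have hd0C : (d0 : ℂ) ≠ 0 := by exact_mod_cast hd0pos.ne'
  have hball0 : (0 : ℂ) ∈ ball (0 : ℂ) 1 := mem_ball_self one_pos
  have hΦmaps : MapsTo (disc d0 d1 A w) (ball 0 1) (ball 0 1) := by
    intro ζ hζ
    rw [mem_ball_zero_iff] at hζ ⊢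
    exact (norm_disc_le hA2 hw h1 hc h h2 hζ).trans_lt hζ
  have hdiff : DifferentiableOn ℂ (disc d0 d1 A w) (ball 0 1) := fun ζ hζ =>
    (hasDerivAt_disc (den_ne h1 h2 (by simpa using hζ))).differentiableAt.differentiableWithinAt
  have hgdiff : DifferentiableOn ℂ (fun ζ => v (disc d0 d1 A w ζ)) (ball 0 1) :=
    hv.comp hdiff hΦmaps
  have hg'0 := deriv_comp_disc (w := w) (A := A) hv hlam h1 h2
  have hg''0 := hasDerivAt_deriv_comp_disc hv hlam hAu h1 h2 hΦmaps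
  have hpt := fun (ζ : ℂ) (hζ : ‖ζ‖ < 1) => pointwise_ineq hv hmaps h0 hA2 hw h1 hc h h2 hζ
  have hg0 : v (disc d0 d1 A w 0) = 0 := by rw [disc_zero, h0]
  obtain ⟨Q, hQ⟩ : ∃ Q : E, Q = fderiv ℂ (fderiv ℂ v) 0 u u := ⟨_, rfl⟩
  rw [← hQ] at hg''0 ⊢
  obtain ⟨g, hg⟩ : ∃ g : ℂ → E, g = fun ζ => v (disc d0 d1 A w ζ) := ⟨_, rfl⟩
  have hgap : ∀ ζ, v (disc d0 d1 A w ζ) = g ζ := fun ζ => by rw [hg]
  rw [← hg] at hgdiff hg'0 hg''0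
  simp only [hgap] at hpt hg0
  have hinner : ∀ x : E, ∀ ζ : ℂ, ‖ζ‖ < 1 →
      HasDerivAt (fun ζ => inner ℂ x (g ζ)) (inner ℂ x (deriv g ζ)) ζ := by
    intro x ζ hζ
    have h3 : HasDerivAt g (deriv g ζ) ζ := (hgdiff.differentiableAt
      (isOpen_ball.mem_nhds (by simpa using hζ))).hasDerivAt
    exact (innerSL ℂ x).hasFDerivAt.comp_hasDerivAt ζ h3
  have hHd : ∀ x : E, ∀ ζ : ℂ, ‖ζ‖ < 1 →
      HasDerivAt (fun ζ => den d0 d1 ζ * inner ℂ x (g ζ))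
        (d1 * inner ℂ x (g ζ) + den d0 d1 ζ * inner ℂ x (deriv g ζ)) ζ := fun x ζ hζ =>
    (hasDerivAt_den ζ).mul (hinner x ζ hζ)
  have hH1' : deriv (fun ζ => den d0 d1 ζ * inner ℂ A (g ζ)) 0 = 2 * lam := by
    rw [(hHd A 0 (by simp)).deriv, hg0, hg'0, inner_zero_right, mul_zero, zero_add, den_zero,
      inner_smul_right, inner_self_eq_norm_sq_to_K]
    have h1 : ((‖A‖ : ℝ) : ℂ) ^ 2 = 2 := by
      rw [← Complex.ofReal_pow, hA2]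
      norm_num
    erw [h1]
    field_simp
  have hH2'' : iteratedDeriv 2 (fun ζ => den d0 d1 ζ * inner ℂ w (g ζ)) 0 =
      2 / d0 * inner ℂ w Q + 2 * lam := by
    rw [iteratedDeriv_succ, iteratedDeriv_one]
    have h3 : deriv (fun ζ => den d0 d1 ζ * inner ℂ w (g ζ)) =ᶠ[𝓝 0]
        fun ζ => d1 * inner ℂ w (g ζ) + den d0 d1 ζ * inner ℂ w (deriv g ζ) := by
      filter_upwards [isOpen_ball.mem_nhds hball0] with ζ hζ
      exact (hHd w ζ (by simpa using hζ)).deriv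
    rw [h3.deriv_eq]
    have h4 : HasDerivAt (fun ζ => inner ℂ w (deriv g ζ)) (inner ℂ w
        ((2 / (d0 : ℂ) ^ 2) • Q + (lam : ℂ) •
          ((-2 * d1 / d0 ^ 2) • A + (2 / d0 : ℂ) • w))) 0 :=
      (innerSL ℂ w).hasFDerivAt.comp_hasDerivAt (0 : ℂ) hg''0
    have h5 := ((hinner w 0 (by simp)).const_mul d1).add
      ((hasDerivAt_den (d0 := d0) (d1 := d1) 0).mul h4)
    have h6 : deriv (fun ζ => d1 * inner ℂ w (g ζ) + den d0 d1 ζ * inner ℂ w (deriv g ζ)) 0 = _ :=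
      h5.deriv
    rw [h6, den_zero, hg'0]
    have hww : inner ℂ w w = (1 : ℂ) := by
      rw [inner_self_eq_norm_sq_to_K, hw]
      norm_num
    rw [inner_add_right, inner_smul_right, inner_smul_right, inner_smul_right, inner_add_right,
      inner_smul_right, inner_smul_right, hww]
    generalize (inner ℂ w A : ℂ) = p
    generalize (inner ℂ w Q : ℂ) = q
    field_simp
    ring
  have hineq := circle_ineq (H1 := fun ζ => den d0 d1 ζ * inner ℂ A (g ζ))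
    (H2 := fun ζ => den d0 d1 ζ * inner ℂ w (g ζ)) (c := inner ℂ A w) (a := 2)
    (fun ζ hζ => (hHd A ζ (by simpa using hζ)).differentiableAt.differentiableWithinAt)
    (fun ζ hζ => (hHd w ζ (by simpa using hζ)).differentiableAt.differentiableWithinAt) hpt
  rw [hH1', hH2''] at hineq
  have h8 : (2 / (d0 : ℂ) * inner ℂ w Q + 2 * (lam : ℂ)).re =
      2 / d0 * (inner ℂ w Q).re + 2 * lam := by
    have h9 : (2 / (d0 : ℂ)) = ((2 / d0 : ℝ) : ℂ) := by push_cast; ring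
    have h10 : (2 * (lam : ℂ)) = ((2 * lam : ℝ) : ℂ) := by push_cast; ring
    rw [h9, h10, Complex.add_re, Complex.re_ofReal_mul, Complex.ofReal_re]
  have h11 : (2 * (lam : ℂ)).re = 2 * lam := by
    have h10 : (2 * (lam : ℂ)) = ((2 * lam : ℝ) : ℂ) := by push_cast; ring
    rw [h10, Complex.ofReal_re]
  rw [h8, h11] at hineq
  have h12 : (inner ℂ w Q).re / d0 ≤ 3 * (1 - lam) := by
    have h13 : 2 / d0 * (inner ℂ w Q).re = 2 * ((inner ℂ w Q).re / d0) := by ring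
    rw [h13] at hineq
    linarith
  rw [div_le_iff₀ hd0pos] at h12
  calc (inner ℂ w Q).re ≤ 3 * (1 - lam) * d0 := h12
    _ ≤ 3 * (1 - lam) * Real.sqrt 3 := by
      apply mul_le_mul_of_nonneg_left hd0le
      linarith
    _ = 3 * Real.sqrt 3 * (1 - lam) := by ring

/-- Norm version of the key estimate. -/
theorem norm_second_le {v : E → E} (hv : DifferentiableOn ℂ v (ball 0 1))
    (hmaps : MapsTo v (ball 0 1) (closedBall 0 1)) (h0 : v 0 = 0) {lam : ℝ}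
    (hlam : fderiv ℂ v 0 = (lam : ℂ) • ContinuousLinearMap.id ℂ E) (hlam1 : lam ≤ 1)
    {u : E} (hu : ‖u‖ = 1) :
    ‖fderiv ℂ (fderiv ℂ v) 0 u u‖ ≤ 3 * Real.sqrt 3 * (1 - lam) := by
  obtain ⟨Q, hQ⟩ : ∃ Q : E, Q = fderiv ℂ (fderiv ℂ v) 0 u u := ⟨_, rfl⟩
  rw [← hQ]
  by_cases hQ0 : Q = 0
  · rw [hQ0, norm_zero]
    have : 0 ≤ 1 - lam := by linarith
    positivity
  have hn : ‖Q‖ ≠ 0 := norm_ne_zero_iff.2 hQ0
  have hnC : ((‖Q‖ : ℝ) : ℂ) ≠ 0 := by exact_mod_cast hn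
  have hw : ‖((‖Q‖ : ℝ) : ℂ)⁻¹ • Q‖ = 1 := by
    rw [norm_smul, norm_inv, Complex.norm_real, norm_norm, inv_mul_cancel₀ hn]
  have h1 := re_inner_second_le hv hmaps h0 hlam hlam1 hu hw
  rw [← hQ, inner_smul_left, inner_self_eq_norm_sq_to_K] at h1
  have h2 : (starRingEnd ℂ) (((‖Q‖ : ℝ) : ℂ)⁻¹) * ((‖Q‖ : ℝ) : ℂ) ^ 2 = ((‖Q‖ : ℝ) : ℂ) := by
    rw [map_inv₀, Complex.conj_ofReal]
    field_simp
  erw [h2] at h1
  exact h1

end bound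

end Pool.Agent.Lib.MP_2306a6_an
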