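import Mathlib

/-!
# Mappings with parametric representation: definitions
-/

namespace Pool.Agent.Lib.MP_2306a6_an

/-- The space `ℂⁿ` with the Euclidean norm. -/
abbrev Cn (n : ℕ) : Type := EuclideanSpace ℂ (Fin n)

/-- The open unit ball of `ℂⁿ`. -/
abbrev unitBall (n : ℕ) : Set (Cn n) := Metric.ball 0 1

/-- `f` is univalent (holomorphic and injective) on the unit ball. -/
def Univalent {n : ℕ} (f : Cn n → Cn n) : Prop :=
  DifferentiableOn ℂ f (unitBall n) ∧ Set.InjOn f (unitBall n)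

/-- `f` is a normalized Loewner chain, the map `f(z, t)` of the text being `f t z`. -/
structure IsLoewnerChain {n : ℕ} (f : ℝ → Cn n → Cn n) : Prop where
  univalent : ∀ t, 0 ≤ t → Univalent (f t)
  map_zero : ∀ t, 0 ≤ t → f t 0 = 0
  fderiv_zero : ∀ t, 0 ≤ t → fderiv ℂ (f t) 0 = (Real.exp t : ℂ) • ContinuousLinearMap.id ℂ (Cn n)
  image_subset : ∀ s t, 0 ≤ s → s ≤ t → f s '' unitBall n ⊆ f t '' unitBall n

/-- The family `(g t)`, `t ≥ 0`, is normal on the unit ball: every sequence of its members has a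
subsequence which converges locally uniformly on the ball. -/
def IsNormalFamily {n : ℕ} (g : ℝ → Cn n → Cn n) : Prop :=
  ∀ t : ℕ → ℝ, (∀ k, 0 ≤ t k) → ∃ φ : ℕ → ℕ, StrictMono φ ∧ ∃ G : Cn n → Cn n,
    TendstoLocallyUniformlyOn (fun k => g (t (φ k))) G Filter.atTop (unitBall n)

/-- The class `S⁰(𝔹ⁿ)` of mappings with parametric representation. -/
def S0 (n : ℕ) : Set (Cn n → Cn n) :=
  {f | ∃ F : ℝ → Cn n → Cn n, IsLoewnerChain F ∧
    IsNormalFamily (fun t z => (Real.exp (-t) : ℂ) • F t z) ∧ Set.EqOn f (F 0) (unitBall n)}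

/-- The second order term `P₂(z) = ½ D²f(0)(z, z)` of `f` at the origin. -/
noncomputable def P2 {n : ℕ} (f : Cn n → Cn n) (z : Cn n) : Cn n :=
  (1 / 2 : ℂ) • fderiv ℂ (fderiv ℂ f) 0 z z

/-- The norm `‖P‖ = sup_{‖z‖ = 1} ‖P(z)‖`. -/
noncomputable def supNorm {n : ℕ} (P : Cn n → Cn n) : ℝ :=
  sSup ((fun z => ‖P z‖) '' Metric.sphere 0 1)

end Pool.Agent.Lib.MP_2306a6_an
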