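import Pool.Agent.Lib.MP_2306a6_an.Osgood2

/-!
# The disc inequality
-/

namespace Pool.Agent.Lib.MP_2306a6_an

open Metric Set Filter Topology MeasureTheory

/-- Fourier coefficients of a holomorphic function on a circle. -/
lemma integral_circleMap_inv_pow {f : ℂ → ℂ} {r : ℝ} (hr : 0 < r) (n : ℕ)
    (hf : DifferentiableOn ℂ f (closedBall 0 r)) :
    ∫ θ in (0 : ℝ)..(2 * Real.pi), ((circleMap 0 r θ) ^ n)⁻¹ * f (circleMap 0 r θ) =
      (2 * Real.pi / n.factorial) * iteratedDeriv n f 0 := by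
  have h := hf.circleIntegral_one_div_sub_center_pow_smul hr n
  have h1 : (∮ z in C(0, r), (1 / (z - 0) ^ (n + 1)) • f z) =
      Complex.I * ∫ θ in (0 : ℝ)..(2 * Real.pi),
        ((circleMap 0 r θ) ^ n)⁻¹ * f (circleMap 0 r θ) := by
    rw [circleIntegral, ← intervalIntegral.integral_const_mul]
    apply intervalIntegral.integral_congr
    intro θ _
    have h2 : circleMap 0 r θ ≠ 0 := by
      rw [Ne, ← norm_eq_zero]
      simp [hr.ne']
    simp only [deriv_circleMap, sub_zero, smul_eq_mul, one_div]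
    rw [pow_succ]
    field_simp
  rw [h1] at h
  have hI : Complex.I ≠ 0 := Complex.I_ne_zero
  apply mul_left_cancel₀ hI
  rw [h, smul_eq_mul]
  ring

/-- The averaged inequality on a circle. -/
lemma circle_ineq {H1 H2 : ℂ → ℂ} {c : ℂ} {a : ℝ} (h1 : DifferentiableOn ℂ H1 (ball 0 1))
    (h2 : DifferentiableOn ℂ H2 (ball 0 1))
    (h : ∀ ζ : ℂ, ‖ζ‖ < 1 → ((starRingEnd ℂ) ζ * H1 ζ + (starRingEnd ℂ) ζ ^ 2 * H2 ζ).re ≤
      ‖ζ‖ ^ 2 * (a + 2 * (ζ * c).re + ‖ζ‖ ^ 2)) :
    (deriv H1 0).re + (iteratedDeriv 2 H2 0).re / 2 ≤ a + 1 := by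
  have key : ∀ r ∈ Ioo (0 : ℝ) 1,
      (deriv H1 0).re + r ^ 2 * ((iteratedDeriv 2 H2 0).re / 2) ≤ a + r ^ 2 := by
    intro r hr
    have hr0 : 0 < r := hr.1
    have hsub : closedBall (0 : ℂ) r ⊆ ball 0 1 := closedBall_subset_ball hr.2
    have hnorm : ∀ θ, ‖circleMap 0 r θ‖ = r := by
      intro θ
      simp [abs_of_pos hr0]
    have hne : ∀ θ, circleMap 0 r θ ≠ 0 := by
      intro θ h0
      have := hnorm θ
      rw [h0, norm_zero] at this
      linarith
    have hmem : ∀ θ, circleMap 0 r θ ∈ ball (0 : ℂ) 1 := by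
      intro θ
      rw [mem_ball_zero_iff, hnorm]
      exact hr.2
    have hconj : ∀ θ, (starRingEnd ℂ) (circleMap 0 r θ) =
        (r : ℂ) ^ 2 * (circleMap 0 r θ)⁻¹ := by
      intro θ
      rw [eq_mul_inv_iff_mul_eq₀ (hne θ), Complex.conj_mul', hnorm]
    have e1 := integral_circleMap_inv_pow hr0 1 (h1.mono hsub)
    have e2 := integral_circleMap_inv_pow hr0 2 (h2.mono hsub)
    have e3 := integral_circleMap_inv_pow (f := fun z => z * c) hr0 0 (by fun_prop)
    have hcm : Continuous (circleMap 0 r) := continuous_circleMap 0 r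
    have hc1 : Continuous (fun θ : ℝ => ((circleMap 0 r θ) ^ 1)⁻¹ * H1 (circleMap 0 r θ)) := by
      apply Continuous.mul
      · exact (hcm.pow 1).inv₀ fun θ => pow_ne_zero _ (hne θ)
      · exact h1.continuousOn.comp_continuous hcm hmem
    have hc2 : Continuous (fun θ : ℝ => ((circleMap 0 r θ) ^ 2)⁻¹ * H2 (circleMap 0 r θ)) := by
      apply Continuous.mul
      · exact (hcm.pow 2).inv₀ fun θ => pow_ne_zero _ (hne θ)
      · exact h2.continuousOn.comp_continuous hcm hmem
    have hc3 : Continuous (fun θ : ℝ => ((circleMap 0 r θ) ^ 0)⁻¹ * (circleMap 0 r θ * c)) := by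
      simp only [pow_zero, inv_one, one_mul]
      exact hcm.mul continuous_const
    set G : ℝ → ℂ := fun θ => (r : ℂ) ^ 2 * (((circleMap 0 r θ) ^ 1)⁻¹ * H1 (circleMap 0 r θ)) +
      (r : ℂ) ^ 4 * (((circleMap 0 r θ) ^ 2)⁻¹ * H2 (circleMap 0 r θ)) -
      2 * (r : ℂ) ^ 2 * (((circleMap 0 r θ) ^ 0)⁻¹ * (circleMap 0 r θ * c)) with hG
    have hGc : Continuous G :=
      ((continuous_const.mul hc1).add (continuous_const.mul hc2)).sub (continuous_const.mul hc3)
    have hGint : ∫ θ in (0 : ℝ)..(2 * Real.pi), G θ =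
        (r : ℂ) ^ 2 * (2 * Real.pi * deriv H1 0) +
        (r : ℂ) ^ 4 * (2 * Real.pi * (iteratedDeriv 2 H2 0 / 2)) := by
      rw [hG]
      rw [intervalIntegral.integral_sub, intervalIntegral.integral_add,
        intervalIntegral.integral_const_mul, intervalIntegral.integral_const_mul,
        intervalIntegral.integral_const_mul, e1, e2, e3]
      · simp only [Nat.factorial, iteratedDeriv_one, iteratedDeriv_zero]
        push_cast
        ring
      · exact (continuous_const.mul hc1).intervalIntegrable _ _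
      · exact (continuous_const.mul hc2).intervalIntegrable _ _
      · exact ((continuous_const.mul hc1).add (continuous_const.mul hc2)).intervalIntegrable _ _
      · exact (continuous_const.mul hc3).intervalIntegrable _ _
    have hGre : ∀ θ, (G θ).re ≤ r ^ 2 * (a + r ^ 2) := by
      intro θ
      have h3 := h (circleMap 0 r θ) (by rw [hnorm]; exact hr.2)
      rw [hnorm, hconj] at h3
      have h4 : G θ = ((r : ℂ) ^ 2 * (circleMap 0 r θ)⁻¹ * H1 (circleMap 0 r θ) +
          ((r : ℂ) ^ 2 * (circleMap 0 r θ)⁻¹) ^ 2 * H2 (circleMap 0 r θ)) -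
          ((2 * r ^ 2 : ℝ) : ℂ) * (circleMap 0 r θ * c) := by
        rw [hG]
        have := hne θ
        push_cast
        field_simp
      rw [h4, Complex.sub_re, Complex.re_ofReal_mul]
      linarith
    have hint : (∫ θ in (0 : ℝ)..(2 * Real.pi), G θ).re ≤ 2 * Real.pi * (r ^ 2 * (a + r ^ 2)) := by
      have h5 : (∫ θ in (0 : ℝ)..(2 * Real.pi), G θ).re =
          ∫ θ in (0 : ℝ)..(2 * Real.pi), (G θ).re := by
        have := Complex.reCLM.intervalIntegral_comp_comm (hGc.intervalIntegrable (μ := volume)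
          0 (2 * Real.pi))
        simpa using this.symm
      rw [h5]
      calc ∫ θ in (0 : ℝ)..(2 * Real.pi), (G θ).re
          ≤ ∫ _ in (0 : ℝ)..(2 * Real.pi), r ^ 2 * (a + r ^ 2) := by
            apply intervalIntegral.integral_mono_on Real.two_pi_pos.le
            · exact (Complex.continuous_re.comp hGc).intervalIntegrable _ _
            · exact intervalIntegrable_const
            · intro θ _
              exact hGre θ
        _ = 2 * Real.pi * (r ^ 2 * (a + r ^ 2)) := by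
            rw [intervalIntegral.integral_const, sub_zero, smul_eq_mul]
    rw [hGint] at hint
    have h6 : ((r : ℂ) ^ 2 * (2 * Real.pi * deriv H1 0) +
        (r : ℂ) ^ 4 * (2 * Real.pi * (iteratedDeriv 2 H2 0 / 2))) =
        ((2 * Real.pi * r ^ 2 : ℝ) : ℂ) * (deriv H1 0 + ((r ^ 2 / 2 : ℝ) : ℂ) *
          iteratedDeriv 2 H2 0) := by
      push_cast
      ring
    rw [h6, Complex.re_ofReal_mul, Complex.add_re, Complex.re_ofReal_mul] at hint
    have h7 : 0 < 2 * Real.pi * r ^ 2 := by positivity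
    have h8 : 2 * Real.pi * r ^ 2 * ((deriv H1 0).re + r ^ 2 / 2 * (iteratedDeriv 2 H2 0).re) ≤
        2 * Real.pi * r ^ 2 * (a + r ^ 2) := by
      calc _ ≤ 2 * Real.pi * (r ^ 2 * (a + r ^ 2)) := hint
        _ = _ := by ring
    have h9 := le_of_mul_le_mul_left h8 h7
    linarith
  have hlim1 : Tendsto (fun r : ℝ => (deriv H1 0).re + r ^ 2 * ((iteratedDeriv 2 H2 0).re / 2))
      (𝓝[<] 1) (𝓝 ((deriv H1 0).re + 1 ^ 2 * ((iteratedDeriv 2 H2 0).re / 2))) := by
    apply Tendsto.mono_left _ nhdsWithin_le_nhds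
    apply Continuous.tendsto
    fun_prop
  have hlim2 : Tendsto (fun r : ℝ => a + r ^ 2) (𝓝[<] 1) (𝓝 (a + 1 ^ 2)) := by
    apply Tendsto.mono_left _ nhdsWithin_le_nhds
    apply Continuous.tendsto
    fun_prop
  have hev : ∀ᶠ r in 𝓝[<] (1 : ℝ), (deriv H1 0).re + r ^ 2 * ((iteratedDeriv 2 H2 0).re / 2) ≤
      a + r ^ 2 := by
    filter_upwards [Ioo_mem_nhdsLT (show (0 : ℝ) < 1 by norm_num)] with r hr
    exact key r hr
  have := le_of_tendsto_of_tendsto hlim1 hlim2 hev
  simpa using this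

end Pool.Agent.Lib.MP_2306a6_an
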