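import Pool.Agent.Lib.MP_2306a6_an.Loewner

/-!
# The extremal shear
-/

namespace Pool.Agent.Lib.MP_2306a6_an

open Metric Set Filter Topology

/-- The basic inequality on the sphere. -/
lemma sphere_ineq {x Y κ : ℝ} (hκ0 : 0 ≤ κ) (hκ1 : κ ≤ 1) (hY : 0 ≤ Y) (hxY : x ^ 2 + Y = 1) :
    (1 - κ) ^ 2 * ((x + 3 * Real.sqrt 3 / 2 * κ * Y) ^ 2 + Y) ≤ 1 := by
  have h3 : Real.sqrt 3 ^ 2 = 3 := Real.sq_sqrt (by norm_num)
  -- the arithmetic mean inequality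
  have h1 : 6 * Real.sqrt 3 * x * (1 + κ) ≤ 9 * (1 + κ) ^ 2 * x ^ 2 + 3 := by
    have := sq_nonneg (Real.sqrt 3 * (1 + κ) * x - 1)
    have e : (Real.sqrt 3 * (1 + κ) * x - 1) ^ 2 =
        Real.sqrt 3 ^ 2 * (1 + κ) ^ 2 * x ^ 2 - 2 * (Real.sqrt 3 * (1 + κ) * x) + 1 := by ring
    rw [e, h3] at this
    linarith
  have h2 : (1 - κ) * (4 + 6 * κ + 3 * κ ^ 2) ≤ 2 * (1 + κ) * (2 - κ) := by
    have : 0 ≤ κ ^ 2 + 3 * κ ^ 3 := by positivity
    nlinarith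
  have hx2 : x ^ 2 = 1 - Y := by linarith
  have h4 : 2 * (1 + κ) * ((1 - κ) ^ 2 * (3 * Real.sqrt 3 * x * Y + 27 / 4 * κ * Y ^ 2)) ≤
      2 * (1 + κ) * (2 - κ) := by
    calc 2 * (1 + κ) * ((1 - κ) ^ 2 * (3 * Real.sqrt 3 * x * Y + 27 / 4 * κ * Y ^ 2))
        = (1 - κ) ^ 2 * Y * (6 * Real.sqrt 3 * x * (1 + κ)) +
          (1 - κ) ^ 2 * (27 / 2 * κ * (1 + κ) * Y ^ 2) := by ring
      _ ≤ (1 - κ) ^ 2 * Y * (9 * (1 + κ) ^ 2 * x ^ 2 + 3) +
          (1 - κ) ^ 2 * (27 / 2 * κ * (1 + κ) * Y ^ 2) := by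
          have h5 : 0 ≤ (1 - κ) ^ 2 * Y := by positivity
          have := mul_le_mul_of_nonneg_left h1 h5
          linarith
      _ = 3 * ((1 - κ) * Y) * ((1 - κ) * (4 + 6 * κ + 3 * κ ^ 2)) -
          9 / 2 * (1 + κ) * (2 - κ) * ((1 - κ) * Y) ^ 2 := by
          rw [hx2]
          ring
      _ ≤ 3 * ((1 - κ) * Y) * (2 * (1 + κ) * (2 - κ)) -
          9 / 2 * (1 + κ) * (2 - κ) * ((1 - κ) * Y) ^ 2 := by
          have h5 : 0 ≤ 3 * ((1 - κ) * Y) := by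
            have : 0 ≤ 1 - κ := by linarith
            positivity
          have := mul_le_mul_of_nonneg_left h2 h5
          linarith
      _ = 2 * (1 + κ) * (2 - κ) - 2 * (1 + κ) * (2 - κ) * (1 - 3 / 2 * ((1 - κ) * Y)) ^ 2 := by
          ring
      _ ≤ 2 * (1 + κ) * (2 - κ) := by
          have h5 : 0 ≤ 2 * (1 + κ) * (2 - κ) * (1 - 3 / 2 * ((1 - κ) * Y)) ^ 2 := by
            have : 0 ≤ 2 - κ := by linarith
            positivity
          linarith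
  have h5 : (1 - κ) ^ 2 * (3 * Real.sqrt 3 * x * Y + 27 / 4 * κ * Y ^ 2) ≤ 2 - κ :=
    le_of_mul_le_mul_left h4 (by positivity)
  have h6 : (1 - κ) ^ 2 * ((x + 3 * Real.sqrt 3 / 2 * κ * Y) ^ 2 + Y) =
      (1 - κ) ^ 2 + κ * ((1 - κ) ^ 2 * (3 * Real.sqrt 3 * x * Y + 27 / 4 * κ * Y ^ 2)) := by
    have e : (x + 3 * Real.sqrt 3 / 2 * κ * Y) ^ 2 = x ^ 2 + 3 * Real.sqrt 3 * κ * x * Y +
        9 / 4 * Real.sqrt 3 ^ 2 * κ ^ 2 * Y ^ 2 := by ring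
    rw [e, h3, hx2]
    ring
  rw [h6]
  have := mul_le_mul_of_nonneg_left h5 hκ0
  nlinarith

/-- The strict inequality in the ball. -/
lemma ball_ineq {x Y κ : ℝ} (hκ0 : 0 ≤ κ) (hκ1 : κ < 1) (hx : 0 ≤ x) (hY : 0 ≤ Y)
    (hxY : x ^ 2 + Y < 1) :
    (1 - κ) ^ 2 * ((x + 3 * Real.sqrt 3 / 2 * κ * Y) ^ 2 + Y) < 1 := by
  have hY1 : 0 ≤ 1 - Y := by nlinarith
  have h1 : Real.sqrt (1 - Y) ^ 2 = 1 - Y := Real.sq_sqrt hY1
  have h2 := sphere_ineq (x := Real.sqrt (1 - Y)) hκ0 hκ1.le hY (by rw [h1]; ring)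
  have h3 : x < Real.sqrt (1 - Y) := Real.lt_sqrt_of_sq_lt (by linarith)
  have h4 : 0 ≤ 3 * Real.sqrt 3 / 2 * κ * Y := by positivity
  have h5 : (x + 3 * Real.sqrt 3 / 2 * κ * Y) ^ 2 <
      (Real.sqrt (1 - Y) + 3 * Real.sqrt 3 / 2 * κ * Y) ^ 2 :=
    pow_lt_pow_left₀ (by linarith) (by positivity) (by norm_num)
  have h6 : 0 < (1 - κ) ^ 2 := by
    have : 0 < 1 - κ := by linarith
    positivity
  calc (1 - κ) ^ 2 * ((x + 3 * Real.sqrt 3 / 2 * κ * Y) ^ 2 + Y)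
      < (1 - κ) ^ 2 * ((Real.sqrt (1 - Y) + 3 * Real.sqrt 3 / 2 * κ * Y) ^ 2 + Y) := by
        apply mul_lt_mul_of_pos_left _ h6
        linarith
    _ ≤ 1 := h2

variable {n : ℕ}

/-- The shear `z ↦ z + a z_{i₁}² e_{i₀}`. -/
noncomputable def shear (a : ℝ) (i0 i1 : Fin n) (z : Cn n) : Cn n :=
  z + ((a : ℂ) * (z i1) ^ 2) • EuclideanSpace.single i0 (1 : ℂ)

lemma shear_apply_self (a : ℝ) {i0 i1 : Fin n} (z : Cn n) :
    shear a i0 i1 z i0 = z i0 + (a : ℂ) * (z i1) ^ 2 := by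
  simp [shear]

lemma shear_apply_ne (a : ℝ) {i0 i1 i : Fin n} (hi : i ≠ i0) (z : Cn n) :
    shear a i0 i1 z i = z i := by
  simp [shear, hi]

lemma hasFDerivAt_coord (i : Fin n) (z : Cn n) :
    HasFDerivAt (fun z : Cn n => z i) (EuclideanSpace.proj i : Cn n →L[ℂ] ℂ) z :=
  (EuclideanSpace.proj i : Cn n →L[ℂ] ℂ).hasFDerivAt

lemma hasFDerivAt_shear (a : ℝ) (i0 i1 : Fin n) (z : Cn n) :
    HasFDerivAt (shear a i0 i1) (ContinuousLinearMap.id ℂ (Cn n) +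
      ((a : ℂ) • ((2 * z i1) • (EuclideanSpace.proj i1 : Cn n →L[ℂ] ℂ))).smulRight
        (EuclideanSpace.single i0 (1 : ℂ))) z := by
  have h1 : HasFDerivAt (fun z : Cn n => (z i1) ^ 2)
      ((2 * z i1) • (EuclideanSpace.proj i1 : Cn n →L[ℂ] ℂ)) z := by
    have h := (hasFDerivAt_coord i1 z).mul (hasFDerivAt_coord i1 z)
    have e : (fun z : Cn n => (z i1) ^ 2) = fun z : Cn n => z i1 * z i1 := by
      funext z
      rw [pow_two]
    rw [e]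
    refine h.congr_fderiv ?_
    apply ContinuousLinearMap.ext
    intro x
    change z i1 * x i1 + z i1 * x i1 = 2 * z i1 * x i1
    ring
  exact (hasFDerivAt_id z).add ((h1.const_mul (a : ℂ)).smul_const _)

lemma shear_zero (a : ℝ) (i0 i1 : Fin n) : shear a i0 i1 0 = 0 := by
  simp [shear]

lemma fderiv_shear_zero (a : ℝ) (i0 i1 : Fin n) :
    fderiv ℂ (shear a i0 i1) 0 = ContinuousLinearMap.id ℂ (Cn n) := by
  rw [(hasFDerivAt_shear a i0 i1 0).fderiv]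
  ext x i
  simp

lemma shear_injective (a : ℝ) {i0 i1 : Fin n} (h : i1 ≠ i0) :
    Function.Injective (shear a i0 i1) := by
  intro z w hzw
  have h1 : z i1 = w i1 := by
    rw [← shear_apply_ne a h z, ← shear_apply_ne a h w, hzw]
  ext i
  by_cases hi : i = i0
  · subst hi
    have h2 : shear a i i1 z i = shear a i i1 w i := by rw [hzw]
    rw [shear_apply_self, shear_apply_self, h1] at h2
    exact add_right_cancel h2
  · rw [← shear_apply_ne a hi z, ← shear_apply_ne a hi w, hzw]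

/-- The norm of the inner map. -/
lemma norm_transition_lt {i0 i1 : Fin n} (h : i1 ≠ i0) {κ : ℝ} (hκ0 : 0 ≤ κ) (hκ1 : κ < 1)
    {z : Cn n} (hz : ‖z‖ < 1) :
    ‖((1 - κ : ℝ) : ℂ) • shear (3 * Real.sqrt 3 / 2 * κ) i0 i1 z‖ < 1 := by
  have hκ : 0 < 1 - κ := by linarith
  rw [norm_smul, Complex.norm_real, Real.norm_of_nonneg hκ.le]
  have h1 : ∀ x : Cn n, ‖x‖ ^ 2 = ‖x i0‖ ^ 2 + ∑ i ∈ Finset.univ.erase i0, ‖x i‖ ^ 2 := by
    intro x
    rw [EuclideanSpace.norm_sq_eq,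
      Finset.add_sum_erase _ (fun i => ‖x i‖ ^ 2) (Finset.mem_univ i0)]
  obtain ⟨Y, hY⟩ : ∃ Y : ℝ, Y = ∑ i ∈ Finset.univ.erase i0, ‖z i‖ ^ 2 := ⟨_, rfl⟩
  have hY0 : 0 ≤ Y := by
    rw [hY]
    positivity
  have h2 : ‖shear (3 * Real.sqrt 3 / 2 * κ) i0 i1 z‖ ^ 2 =
      ‖shear (3 * Real.sqrt 3 / 2 * κ) i0 i1 z i0‖ ^ 2 + Y := by
    rw [h1, hY]
    congr 1
    apply Finset.sum_congr rfl
    intro i hi
    rw [shear_apply_ne _ (Finset.ne_of_mem_erase hi)]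
  have h3 : ‖z‖ ^ 2 = ‖z i0‖ ^ 2 + Y := by rw [h1, hY]
  have h4 : ‖z i1‖ ^ 2 ≤ Y := by
    rw [hY]
    exact Finset.single_le_sum (f := fun i => ‖z i‖ ^ 2) (fun i _ => by positivity)
      (Finset.mem_erase.2 ⟨h, Finset.mem_univ _⟩)
  have h5 : ‖shear (3 * Real.sqrt 3 / 2 * κ) i0 i1 z i0‖ ≤
      ‖z i0‖ + 3 * Real.sqrt 3 / 2 * κ * Y := by
    rw [shear_apply_self]
    refine (norm_add_le _ _).trans (add_le_add le_rfl ?_)
    rw [norm_mul, norm_pow, Complex.norm_real, Real.norm_of_nonneg (by positivity)]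
    exact mul_le_mul_of_nonneg_left h4 (by positivity)
  have h6 : ‖z i0‖ ^ 2 + Y < 1 := by
    rw [← h3]
    nlinarith [norm_nonneg z]
  have h7 := ball_ineq hκ0 hκ1 (norm_nonneg (z i0)) hY0 h6
  have h8 : ((1 - κ) * ‖shear (3 * Real.sqrt 3 / 2 * κ) i0 i1 z‖) ^ 2 < 1 ^ 2 := by
    rw [mul_pow, h2, one_pow]
    refine lt_of_le_of_lt ?_ h7
    apply mul_le_mul_of_nonneg_left _ (by positivity)
    have := pow_le_pow_left₀ (norm_nonneg _) h5 2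
    linarith
  exact lt_of_pow_lt_pow_left₀ 2 zero_le_one h8

/-- The transition identity. -/
lemma shear_transition {i0 i1 : Fin n} (h : i1 ≠ i0) (c : ℝ) {κ : ℝ} (z : Cn n) :
    shear c i0 i1 (((1 - κ : ℝ) : ℂ) • shear (c * κ) i0 i1 z) =
      ((1 - κ : ℝ) : ℂ) • shear c i0 i1 z := by
  ext i
  by_cases hi : i = i0
  · subst hi
    rw [shear_apply_self]
    simp only [PiLp.smul_apply, smul_eq_mul]
    rw [shear_apply_ne _ h, shear_apply_self, shear_apply_self]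
    push_cast
    ring
  · rw [shear_apply_ne _ hi]
    simp only [PiLp.smul_apply, smul_eq_mul]
    rw [shear_apply_ne _ hi, shear_apply_ne _ hi]

/-- The Loewner chain of the extremal shear. -/
lemma isLoewnerChain_shear {i0 i1 : Fin n} (h : i1 ≠ i0) :
    IsLoewnerChain (fun t z => (Real.exp t : ℂ) • shear (3 * Real.sqrt 3 / 2) i0 i1 z) := by
  have hd : ∀ (t : ℝ) (z : Cn n),
      HasFDerivAt (fun z => (Real.exp t : ℂ) • shear (3 * Real.sqrt 3 / 2) i0 i1 z)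
        ((Real.exp t : ℂ) • fderiv ℂ (shear (3 * Real.sqrt 3 / 2) i0 i1) z) z := fun t z =>
    (hasFDerivAt_shear (3 * Real.sqrt 3 / 2) i0 i1 z).differentiableAt.hasFDerivAt.const_smul
      (Real.exp t : ℂ)
  have hne : ∀ t : ℝ, (Real.exp t : ℂ) ≠ 0 := fun t => by
    exact_mod_cast (Real.exp_pos t).ne'
  refine ⟨fun t _ => ⟨fun z _ => (hd t z).differentiableAt.differentiableWithinAt, ?_⟩,
    fun t _ => ?_, fun t _ => ?_, ?_⟩
  · intro z _ w _ hzw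
    exact shear_injective _ h (smul_right_injective _ (hne t) hzw)
  · rw [shear_zero, smul_zero]
  · rw [(hd t 0).fderiv, fderiv_shear_zero]
  · rintro s t hs hst _ ⟨z, hz, rfl⟩
    rw [mem_ball_zero_iff] at hz
    have hκ0 : 0 ≤ 1 - Real.exp (s - t) := by
      have := Real.exp_le_one_iff.2 (show s - t ≤ 0 by linarith)
      linarith
    have hκ1 : 1 - Real.exp (s - t) < 1 := by
      have := Real.exp_pos (s - t)
      linarith
    have h1 := norm_transition_lt h hκ0 hκ1 hz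
    refine ⟨_, mem_ball_zero_iff.2 h1, ?_⟩
    simp only
    rw [shear_transition h, smul_smul]
    congr 1
    rw [← Complex.ofReal_mul]
    congr 1
    rw [sub_sub_cancel, ← Real.exp_add]
    congr 1
    ring

/-- The extremal shear belongs to `S⁰`. -/
lemma shear_mem_S0 {i0 i1 : Fin n} (h : i1 ≠ i0) :
    shear (3 * Real.sqrt 3 / 2) i0 i1 ∈ S0 n := by
  refine ⟨_, isLoewnerChain_shear h, ?_, ?_⟩
  · intro t _
    refine ⟨id, strictMono_id, shear (3 * Real.sqrt 3 / 2) i0 i1, ?_⟩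
    have h1 : ∀ k : ℕ, (fun z : Cn n => (Real.exp (-(t (id k))) : ℂ) • (Real.exp (t (id k)) : ℂ) •
        shear (3 * Real.sqrt 3 / 2) i0 i1 z) = shear (3 * Real.sqrt 3 / 2) i0 i1 := by
      intro k
      funext z
      rw [smul_smul, ← Complex.ofReal_mul, ← Real.exp_add, neg_add_cancel, Real.exp_zero,
        Complex.ofReal_one, one_smul]
    simp only [h1]
    intro u hu x _
    exact ⟨univ, univ_mem, Eventually.of_forall fun k y _ => refl_mem_uniformity hu⟩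
  · intro z _
    simp

/-- The second order term of the extremal shear. -/
lemma norm_P2_shear (a : ℝ) (ha : 0 ≤ a) {i0 i1 : Fin n} {u : Cn n} (hu : ‖u‖ = 1) :
    ‖P2 (shear a i0 i1) u‖ = a * ‖u i1‖ ^ 2 := by
  have hdiff : DifferentiableOn ℂ (shear a i0 i1) (unitBall n) := fun z _ =>
    (hasFDerivAt_shear a i0 i1 z).differentiableAt.differentiableWithinAt
  have h1 := deriv_deriv_line hdiff hu
  have h2 : (fun ζ : ℂ => shear a i0 i1 (ζ • u)) = fun ζ => ζ • u +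
      (ζ ^ 2 * ((a : ℂ) * (u i1) ^ 2)) • EuclideanSpace.single i0 (1 : ℂ) := by
    funext ζ
    rw [shear]
    congr 2
    simp only [PiLp.smul_apply, smul_eq_mul]
    ring
  have h3 : ∀ ζ : ℂ, HasDerivAt (fun ζ : ℂ => ζ • u +
      (ζ ^ 2 * ((a : ℂ) * (u i1) ^ 2)) • EuclideanSpace.single i0 (1 : ℂ))
      (u + (2 * ζ * ((a : ℂ) * (u i1) ^ 2)) • EuclideanSpace.single i0 (1 : ℂ)) ζ := by
    intro ζ
    have h4 : HasDerivAt (fun ζ : ℂ => ζ ^ 2) (2 * ζ) ζ := by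
      simpa using hasDerivAt_pow 2 ζ
    exact (hasDerivAt_line u ζ).add ((h4.mul_const _).smul_const _)
  have h4 : deriv (fun ζ : ℂ => shear a i0 i1 (ζ • u)) = fun ζ =>
      u + (2 * ζ * ((a : ℂ) * (u i1) ^ 2)) • EuclideanSpace.single i0 (1 : ℂ) := by
    funext ζ
    rw [h2, (h3 ζ).deriv]
  have h5 : HasDerivAt (fun ζ : ℂ => u + (2 * ζ * ((a : ℂ) * (u i1) ^ 2)) •
      EuclideanSpace.single i0 (1 : ℂ))
      ((2 * ((a : ℂ) * (u i1) ^ 2)) • EuclideanSpace.single i0 (1 : ℂ)) 0 := by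
    have h6 : HasDerivAt (fun ζ : ℂ => 2 * ζ) 2 0 := by
      simpa using (hasDerivAt_id (0 : ℂ)).const_mul 2
    exact ((h6.mul_const _).smul_const _).const_add u
  rw [h4, h5.deriv] at h1
  have h8 : ‖(EuclideanSpace.single i0 (1 : ℂ) : Cn n)‖ = 1 := by simp
  rw [P2, ← h1, smul_smul, norm_smul, h8, mul_one]
  have h7 : (1 / 2 : ℂ) * (2 * ((a : ℂ) * (u i1) ^ 2)) = (a : ℂ) * (u i1) ^ 2 := by ring
  rw [h7, norm_mul, norm_pow, Complex.norm_real, Real.norm_of_nonneg ha]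

lemma supNorm_P2_le {f : Cn n → Cn n} (hf : f ∈ S0 n) {u : Cn n} (hu : ‖u‖ = 1) :
    supNorm (P2 f) ≤ 3 * Real.sqrt 3 / 2 := by
  apply csSup_le
  · exact ⟨_, mem_image_of_mem _ (mem_sphere_zero_iff_norm.2 hu)⟩
  · rintro _ ⟨u, hu, rfl⟩
    exact norm_P2_le hf (mem_sphere_zero_iff_norm.1 hu)

lemma norm_P2_le_supNorm {f : Cn n → Cn n} (hf : f ∈ S0 n) {u : Cn n} (hu : ‖u‖ = 1) :
    ‖P2 f u‖ ≤ supNorm (P2 f) := by
  apply le_csSup
  · refine ⟨3 * Real.sqrt 3 / 2, ?_⟩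
    rintro _ ⟨u, hu, rfl⟩
    exact norm_P2_le hf (mem_sphere_zero_iff_norm.1 hu)
  · exact mem_image_of_mem (fun z => ‖P2 f z‖) (mem_sphere_zero_iff_norm.2 hu)

/-- The sharp bound for the second order term. -/
theorem isGreatest_second (hn : 2 ≤ n) :
    IsGreatest {x : ℝ | ∃ f ∈ S0 n, supNorm (P2 f) = x} (3 * Real.sqrt 3 / 2) := by
  obtain ⟨i0, i1, h⟩ : ∃ i0 i1 : Fin n, i1 ≠ i0 :=
    ⟨⟨0, by omega⟩, ⟨1, by omega⟩, by simp⟩
  have hu : ‖(EuclideanSpace.single i1 (1 : ℂ) : Cn n)‖ = 1 := by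
    simp
  have h1 : ‖P2 (shear (3 * Real.sqrt 3 / 2) i0 i1) (EuclideanSpace.single i1 (1 : ℂ))‖ =
      3 * Real.sqrt 3 / 2 * ‖(EuclideanSpace.single i1 (1 : ℂ) : Cn n) i1‖ ^ 2 :=
    norm_P2_shear _ (by positivity) hu
  have h2 : ‖(EuclideanSpace.single i1 (1 : ℂ) : Cn n) i1‖ = 1 := by simp
  rw [h2, one_pow, mul_one] at h1
  have h3 := norm_P2_le_supNorm (shear_mem_S0 h) hu
  refine ⟨⟨_, shear_mem_S0 h, le_antisymm (supNorm_P2_le (shear_mem_S0 h) hu)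
    (h1.symm.le.trans h3)⟩, ?_⟩
  rintro _ ⟨f, hf, rfl⟩
  exact supNorm_P2_le hf hu

end Pool.Agent.Lib.MP_2306a6_an
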