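import Pool.Agent.Lib.MP_2306a6_an.Smooth

/-!
# Local inverses of holomorphic maps, and injective holomorphic functions of one variable
-/

namespace Pool.Agent.Lib.MP_2306a6_an

open Metric Set Filter Topology

section inverse

variable {E F : Type*} [NormedAddCommGroup E] [NormedSpace ℂ E] [FiniteDimensional ℂ E]
  [NormedAddCommGroup F] [NormedSpace ℂ F] [FiniteDimensional ℂ F]

/-- A holomorphic local inverse. -/
theorem exists_local_inverse {Ψ : E → F} {U : Set E} {a : E} (hU : IsOpen U) (ha : a ∈ U)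
    (hΨ : DifferentiableOn ℂ Ψ U) (Ψ' : E ≃L[ℂ] F)
    (h : HasFDerivAt Ψ (Ψ' : E →L[ℂ] F) a) :
    ∃ (W : Set F) (V : Set E) (χ : F → E), IsOpen W ∧ IsOpen V ∧ Ψ a ∈ W ∧ a ∈ V ∧ V ⊆ U ∧
      (∀ y ∈ W, Ψ (χ y) = y ∧ χ y ∈ U) ∧ (∀ x ∈ V, Ψ x ∈ W ∧ χ (Ψ x) = x) ∧
      DifferentiableOn ℂ χ W ∧ HasFDerivAt χ (Ψ'.symm : F →L[ℂ] E) (Ψ a) := by
  have : CompleteSpace E := FiniteDimensional.complete ℂ E
  have : CompleteSpace F := FiniteDimensional.complete ℂ F
  have hc : ContDiffAt ℂ 1 Ψ a :=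
    (contDiffOn_of_differentiableOn hU 1 hΨ).contDiffAt (hU.mem_nhds ha)
  set e := hc.toOpenPartialHomeomorph Ψ h one_ne_zero with he
  have hcoe : (e : E → F) = Ψ := rfl
  set χ : F → E := (e.symm : F → E) with hχdef
  have hχ : ContDiffAt ℂ 1 χ (Ψ a) := hc.to_localInverse h one_ne_zero
  have hsrc : a ∈ e.source := hc.mem_toOpenPartialHomeomorph_source h one_ne_zero
  have htgt : Ψ a ∈ e.target := hc.image_mem_toOpenPartialHomeomorph_target h one_ne_zero
  have hχa : χ (Ψ a) = a := e.left_inv hsrc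
  obtain ⟨u, huu, hu2⟩ := hχ.contDiffOn (le_refl 1) (by simp)
  have hdiff : ∀ᶠ y in 𝓝 (Ψ a), DifferentiableAt ℂ χ y := by
    filter_upwards [eventually_mem_nhds_iff.2 huu] with y hy
    exact ((hu2 y (mem_of_mem_nhds hy)).contDiffAt hy).differentiableAt (by simp)
  have hUev : ∀ᶠ y in 𝓝 (Ψ a), χ y ∈ U := by
    apply hχ.continuousAt.eventually_mem
    rw [hχa]
    exact hU.mem_nhds ha
  have htev : ∀ᶠ y in 𝓝 (Ψ a), y ∈ e.target := e.open_target.mem_nhds htgt
  obtain ⟨W, hW1, hW2, hW3⟩ := _root_.mem_nhds_iff.1 (hdiff.and (hUev.and htev))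
  have hpre : ∀ᶠ x in 𝓝 a, Ψ x ∈ W := by
    apply hc.continuousAt.eventually_mem
    exact hW2.mem_nhds hW3
  have hsev : ∀ᶠ x in 𝓝 a, x ∈ e.source := e.open_source.mem_nhds hsrc
  obtain ⟨V, hV1, hV2, hV3⟩ := _root_.mem_nhds_iff.1 (hpre.and (hsev.and (hU.mem_nhds ha)))
  refine ⟨W, V, χ, hW2, hV2, hW3, hV3, fun x hx => (hV1 hx).2.2, ?_, ?_, ?_, ?_⟩
  · intro y hy
    exact ⟨e.right_inv (hW1 hy).2.2, (hW1 hy).2.1⟩
  · intro x hx
    exact ⟨(hV1 hx).1, e.left_inv (hV1 hx).2.1⟩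
  · intro y hy
    exact (hW1 hy).1.differentiableWithinAt
  · have h1 : HasFDerivAt (e : E → F) (Ψ' : E →L[ℂ] F) (e.symm (Ψ a)) := by
      have h2 : e.symm (Ψ a) = a := hχa
      rw [h2]
      exact h
    exact e.hasFDerivAt_symm htgt h1

end inverse

section onevar

/-- An injective holomorphic function of one variable has nonzero derivative. -/
theorem deriv_ne_zero_of_injOn {g : ℂ → ℂ} {U : Set ℂ} (hU : IsOpen U)
    (hg : DifferentiableOn ℂ g U) (hinj : InjOn g U) {a : ℂ} (ha : a ∈ U) :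
    deriv g a ≠ 0 := by
  intro h0
  have han : AnalyticAt ℂ g a := hg.analyticAt (hU.mem_nhds ha)
  have han1 : AnalyticAt ℂ (fun z => g z - g a) a := han.sub analyticAt_const
  have hne : ¬ ∀ᶠ z in 𝓝 a, g z - g a = 0 := by
    intro hev
    obtain ⟨ε, hε, hball⟩ := Metric.eventually_nhds_iff_ball.1 (hev.and (hU.mem_nhds ha))
    have hmem : a + (ε / 2 : ℝ) ∈ ball a ε := by
      rw [mem_ball, dist_eq_norm, add_sub_cancel_left, Complex.norm_real,
        Real.norm_of_nonneg (by positivity)]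
      linarith
    have h1 := hball _ hmem
    have h2 : a + (ε / 2 : ℝ) = a := hinj h1.2 ha (sub_eq_zero.1 h1.1)
    have h3 : ((ε / 2 : ℝ) : ℂ) = 0 := by simpa using h2
    have h4 : (ε / 2 : ℝ) = 0 := by exact_mod_cast h3
    linarith
  have horder : analyticOrderAt (fun z => g z - g a) a ≠ ⊤ := by
    rwa [Ne, analyticOrderAt_eq_top]
  obtain ⟨h, hh, hh0, hheq⟩ := (han1.analyticOrderAt_ne_top).1 horder
  set n := analyticOrderNatAt (fun z => g z - g a) a with hn
  -- the order is at least two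
  have hn0 : n ≠ 0 := by
    intro hn0
    have h1 := hheq.self_of_nhds
    rw [hn0] at h1
    simp at h1
    exact hh0 h1.symm
  have hn1 : n ≠ 1 := by
    intro hn1
    have hd : HasDerivAt (fun z => (z - a) ^ n • h z) (h a) a := by
      rw [hn1]
      have h1 : HasDerivAt (fun z : ℂ => z - a) 1 a := (hasDerivAt_id a).sub_const a
      have h2 : HasDerivAt (fun z => (z - a) * h z) (1 * h a + (a - a) * deriv h a) a :=
        h1.mul hh.differentiableAt.hasDerivAt
      simpa using h2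
    have hd2 : HasDerivAt (fun z => g z - g a) (h a) a := hd.congr_of_eventuallyEq hheq
    have hd3 : HasDerivAt (fun z => g z - g a) (deriv g a) a :=
      (han.differentiableAt.hasDerivAt).sub_const _
    have := hd3.unique hd2
    rw [h0] at this
    exact hh0 this.symm
  have hn2 : 2 ≤ n := by omega
  have hnC : (n : ℂ) ≠ 0 := by exact_mod_cast hn0
  -- an `n`-th root
  set c : ℂ := Complex.exp (Complex.log (h a) / n) with hc
  have hcn : c ^ n = h a := by
    rw [hc, ← Complex.exp_nat_mul, mul_div_cancel₀ _ hnC, Complex.exp_log hh0]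
  have hc0 : c ≠ 0 := Complex.exp_ne_zero _
  set k : ℂ → ℂ := fun z => (z - a) * (c * Complex.exp (Complex.log (h z / h a) / n)) with hk
  have hkn : ∀ᶠ z in 𝓝 a, k z ^ n = g z - g a := by
    have hhne : ∀ᶠ z in 𝓝 a, h z ≠ 0 := hh.continuousAt.eventually_ne hh0
    filter_upwards [hheq, hhne] with z hz hz1
    rw [hz, hk]
    simp only
    rw [mul_pow, mul_pow, hcn, ← Complex.exp_nat_mul, mul_div_cancel₀ _ hnC,
      Complex.exp_log (div_ne_zero hz1 hh0), mul_div_cancel₀ _ hh0, smul_eq_mul]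
  have hka : AnalyticAt ℂ k a := by
    apply (analyticAt_id.sub analyticAt_const).mul
    apply analyticAt_const.mul
    apply AnalyticAt.cexp
    apply AnalyticAt.div _ analyticAt_const hnC
    apply AnalyticAt.clog
    · exact hh.div analyticAt_const hh0
    · rw [div_self hh0]
      exact Complex.one_mem_slitPlane
  have hkd : HasStrictDerivAt k c a := by
    have h1 := hka.hasStrictDerivAt
    have h2 : deriv k a = c := by
      have h3 : HasDerivAt (fun z : ℂ => z - a) 1 a := (hasDerivAt_id a).sub_const a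
      have h4 : DifferentiableAt ℂ (fun z => c * Complex.exp (Complex.log (h z / h a) / n)) a := by
        apply DifferentiableAt.const_mul
        apply DifferentiableAt.cexp
        apply DifferentiableAt.div_const
        apply DifferentiableAt.clog
        · exact hh.differentiableAt.div_const _
        · rw [div_self hh0]
          exact Complex.one_mem_slitPlane
      have h5 := h3.mul h4.hasDerivAt
      have h6 := h5.deriv
      rw [show (fun z : ℂ => (z - a)) * (fun z => c * Complex.exp (Complex.log (h z / h a) / n))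
        = k from rfl] at h6
      rw [h6]
      simp [div_self hh0]
    rwa [h2] at h1
  have hmap : map k (𝓝 a) = 𝓝 0 := by
    have := hkd.map_nhds_eq hc0
    simpa [hk] using this
  -- the set of good points
  obtain ⟨ω, hω⟩ : ∃ ω : ℂ, IsPrimitiveRoot ω n := ⟨_, Complex.isPrimitiveRoot_exp n hn0⟩
  have hω1 : ω ≠ 1 := by
    intro h1
    have := hω.pow_eq_one_iff_dvd 1
    simp [h1] at this
    omega
  have hUa : ∀ᶠ z in 𝓝 a, z ∈ U := hU.mem_nhds ha
  have hgood : ∀ᶠ z in 𝓝 a, z ∈ U ∧ k z ^ n = g z - g a := hUa.and hkn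
  have himg : ∀ᶠ w in 𝓝 (0 : ℂ), w ∈ k '' {z | z ∈ U ∧ k z ^ n = g z - g a} := by
    rw [← hmap]
    exact image_mem_map hgood
  have himg2 : ∀ᶠ w in 𝓝 (0 : ℂ), ω * w ∈ k '' {z | z ∈ U ∧ k z ^ n = g z - g a} := by
    have : Tendsto (fun w : ℂ => ω * w) (𝓝 0) (𝓝 0) := by
      have h1 : Continuous fun w : ℂ => ω * w := by fun_prop
      simpa using h1.tendsto 0
    exact this.eventually himg
  obtain ⟨w, ⟨hw1, hw2⟩, hw0⟩ : ∃ w : ℂ, (w ∈ k '' {z | z ∈ U ∧ k z ^ n = g z - g a} ∧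
      ω * w ∈ k '' {z | z ∈ U ∧ k z ^ n = g z - g a}) ∧ w ≠ 0 := by
    have h1 := (himg.and himg2)
    have h2 : ∃ᶠ w in 𝓝 (0 : ℂ), w ≠ 0 := by
      have : (𝓝[≠] (0 : ℂ)).NeBot := inferInstance
      exact Frequently.filter_mono (f := 𝓝[≠] (0:ℂ))
        (Eventually.frequently eventually_mem_nhdsWithin) nhdsWithin_le_nhds
    obtain ⟨w, hw, hw'⟩ := (h2.and_eventually h1).exists
    exact ⟨w, hw', hw⟩
  obtain ⟨z1, ⟨hz1U, hz1⟩, hz1w⟩ := hw1
  obtain ⟨z2, ⟨hz2U, hz2⟩, hz2w⟩ := hw2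
  have heq : g z1 = g z2 := by
    have h1 : k z1 ^ n = k z2 ^ n := by
      rw [hz1w, hz2w, mul_pow, hω.pow_eq_one, one_mul]
    rw [hz1, hz2] at h1
    linear_combination h1
  have h12 := hinj hz1U hz2U heq
  rw [h12, hz2w] at hz1w
  have : (ω - 1) * w = 0 := by linear_combination hz1w
  rcases mul_eq_zero.1 this with h1 | h1
  · exact hω1 (sub_eq_zero.1 h1)
  · exact hw0 h1

end onevar

end Pool.Agent.Lib.MP_2306a6_an
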