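import Pool.Agent.Lib.MP_2306a6_an.Bound
import Pool.Agent.Lib.MP_2306a6_an.Defs

/-!
# The upper bound for mappings with parametric representation
-/

namespace Pool.Agent.Lib.MP_2306a6_an

open Metric Set Filter Topology

variable {n : ℕ}

lemma zero_mem_unitBall : (0 : Cn n) ∈ unitBall n := mem_ball_self one_pos

lemma hasDerivAt_line (u : Cn n) (ζ : ℂ) : HasDerivAt (fun ζ : ℂ => ζ • u) u ζ := by
  have h := (hasDerivAt_id ζ).smul_const u
  rw [one_smul] at h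
  exact h

lemma mapsTo_line {u : Cn n} (hu : ‖u‖ = 1) :
    MapsTo (fun ζ : ℂ => ζ • u) (ball 0 1) (unitBall n) := by
  intro ζ hζ
  rw [mem_ball_zero_iff] at hζ ⊢
  rw [norm_smul, hu, mul_one]
  exact hζ

/-- Second derivative along a line. -/
lemma deriv_deriv_line {f : Cn n → Cn n} (hf : DifferentiableOn ℂ f (unitBall n)) {u : Cn n}
    (hu : ‖u‖ = 1) :
    deriv (deriv fun ζ : ℂ => f (ζ • u)) 0 = fderiv ℂ (fderiv ℂ f) 0 u u := by
  have hd' : deriv (fun ζ : ℂ => ζ • u) = fun _ => u := by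
    funext ζ
    exact (hasDerivAt_line u ζ).deriv
  have h := hasDerivAt_deriv_comp isOpen_ball hf isOpen_ball (mem_ball_self one_pos)
    (fun ζ _ => (hasDerivAt_line u ζ).differentiableAt.differentiableWithinAt) (mapsTo_line hu)
  rw [h.deriv, hd', zero_smul, deriv_const, map_zero, add_zero]

lemma exists_transition {F : ℝ → Cn n → Cn n} (hF : IsLoewnerChain F) {s t : ℝ} (hs : 0 ≤ s)
    (hst : s ≤ t) :
    ∃ v : Cn n → Cn n, DifferentiableOn ℂ v (unitBall n) ∧ MapsTo v (unitBall n) (unitBall n) ∧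
      v 0 = 0 ∧ fderiv ℂ v 0 = ((Real.exp (s - t) : ℝ) : ℂ) • ContinuousLinearMap.id ℂ (Cn n) ∧
      ∀ z ∈ unitBall n, F t (v z) = F s z := by
  obtain ⟨v, hvdef⟩ : ∃ v : Cn n → Cn n,
    v = fun z => Function.invFunOn (F t) (unitBall n) (F s z) := ⟨_, rfl⟩
  have hex : ∀ z ∈ unitBall n, ∃ y ∈ unitBall n, F t y = F s z := fun z hz => by
    obtain ⟨y, hy, hy'⟩ := hF.image_subset s t hs hst (mem_image_of_mem _ hz)
    exact ⟨y, hy, hy'⟩
  have hmem : MapsTo v (unitBall n) (unitBall n) := fun z hz => by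
    rw [hvdef]
    exact Function.invFunOn_mem (hex z hz)
  have heq : ∀ z ∈ unitBall n, F t (v z) = F s z := fun z hz => by
    rw [hvdef]
    exact Function.invFunOn_eq (hex z hz)
  have ht : 0 ≤ t := hs.trans hst
  have hv : DifferentiableOn ℂ v (unitBall n) := by
    refine differentiableOn_of_comp rfl isOpen_ball (hF.univalent t ht).1 (hF.univalent t ht).2
      isOpen_ball hmem ?_
    exact (hF.univalent s hs).1.congr heq
  have h0 : (0 : Cn n) ∈ unitBall n := zero_mem_unitBall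
  have hv0 : v 0 = 0 := (hF.univalent t ht).2 (hmem h0) h0
    (by rw [heq 0 h0, hF.map_zero s hs, hF.map_zero t ht])
  refine ⟨v, hv, hmem, hv0, ?_, heq⟩
  have h1 : HasFDerivAt (F t) (fderiv ℂ (F t) 0) (v 0) := by
    rw [hv0]
    exact ((hF.univalent t ht).1.differentiableAt (isOpen_ball.mem_nhds h0)).hasFDerivAt
  have h2 : HasFDerivAt v (fderiv ℂ v 0) 0 :=
    (hv.differentiableAt (isOpen_ball.mem_nhds h0)).hasFDerivAt
  have h3 : HasFDerivAt (F s) ((fderiv ℂ (F t) 0).comp (fderiv ℂ v 0)) 0 := by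
    refine (h1.comp 0 h2).congr_of_eventuallyEq ?_
    filter_upwards [isOpen_ball.mem_nhds h0] with z hz
    exact (heq z hz).symm
  have h4 : fderiv ℂ (F s) 0 = (fderiv ℂ (F t) 0).comp (fderiv ℂ v 0) := h3.fderiv
  rw [hF.fderiv_zero s hs, hF.fderiv_zero t ht] at h4
  apply ContinuousLinearMap.ext
  intro x
  have h5 := congrArg (fun L : Cn n →L[ℂ] Cn n => L x) h4
  have h6 : ((Real.exp s : ℝ) : ℂ) • x = ((Real.exp t : ℝ) : ℂ) • (fderiv ℂ v 0 x) := h5
  have h7 : ((Real.exp t : ℝ) : ℂ) ≠ 0 := by exact_mod_cast (Real.exp_pos t).ne'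
  have h8 : fderiv ℂ v 0 x = ((Real.exp (s - t) : ℝ) : ℂ) • x := by
    rw [Real.exp_sub, Complex.ofReal_div, div_eq_inv_mul, mul_smul, h6, inv_smul_smul₀ h7]
  rw [h8]
  rfl

lemma second_transition {F : ℝ → Cn n → Cn n} (hF : IsLoewnerChain F) {s t : ℝ} (hs : 0 ≤ s)
    (hst : s ≤ t) {v : Cn n → Cn n} (hv : DifferentiableOn ℂ v (unitBall n))
    (hmaps : MapsTo v (unitBall n) (unitBall n)) (hv0 : v 0 = 0)
    (hdv : fderiv ℂ v 0 = ((Real.exp (s - t) : ℝ) : ℂ) • ContinuousLinearMap.id ℂ (Cn n))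
    (heq : ∀ z ∈ unitBall n, F t (v z) = F s z) {u : Cn n} (hu : ‖u‖ = 1) :
    fderiv ℂ (fderiv ℂ (F s)) 0 u u =
      ((Real.exp (s - t) : ℝ) : ℂ) • ((Real.exp (s - t) : ℝ) : ℂ) •
        fderiv ℂ (fderiv ℂ (F t)) 0 u u +
      ((Real.exp t : ℝ) : ℂ) • fderiv ℂ (fderiv ℂ v) 0 u u := by
  have ht : 0 ≤ t := hs.trans hst
  rw [← deriv_deriv_line (hF.univalent s hs).1 hu, ← deriv_deriv_line hv hu]
  have h1 : (fun ζ : ℂ => F s (ζ • u)) =ᶠ[𝓝 0] fun ζ => F t (v (ζ • u)) := by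
    filter_upwards [isOpen_ball.mem_nhds (mem_ball_self (x := (0 : ℂ)) one_pos)] with ζ hζ
    exact (heq _ (mapsTo_line hu hζ)).symm
  rw [h1.deriv.deriv_eq]
  have hd : DifferentiableOn ℂ (fun ζ : ℂ => v (ζ • u)) (ball 0 1) :=
    hv.comp (fun ζ _ => (hasDerivAt_line u ζ).differentiableAt.differentiableWithinAt)
      (mapsTo_line hu)
  have h2 := hasDerivAt_deriv_comp isOpen_ball (hF.univalent t ht).1 isOpen_ball
    (mem_ball_self one_pos) hd (hmaps.comp (mapsTo_line hu))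
  rw [h2.deriv]
  have h3 : HasFDerivAt v (fderiv ℂ v 0) ((0 : ℂ) • u) := by
    rw [zero_smul]
    exact (hv.differentiableAt (isOpen_ball.mem_nhds zero_mem_unitBall)).hasFDerivAt
  have h4 : deriv (fun ζ : ℂ => v (ζ • u)) 0 = fderiv ℂ v 0 u :=
    (h3.comp_hasDerivAt (0 : ℂ) (hasDerivAt_line u 0)).deriv
  have h5 : fderiv ℂ v 0 u = ((Real.exp (s - t) : ℝ) : ℂ) • u := by
    rw [hdv]
    rfl
  rw [h4, h5, zero_smul, hv0, hF.fderiv_zero t ht, map_smul, map_smul]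
  rfl

/-- The quantity which is followed along the chain. -/
noncomputable def m2 (F : ℝ → Cn n → Cn n) (u : Cn n) (t : ℝ) : ℝ :=
  Real.exp (-t) * ‖fderiv ℂ (fderiv ℂ (F t)) 0 u u‖

lemma m2_le {F : ℝ → Cn n → Cn n} (hF : IsLoewnerChain F) {s δ : ℝ} (hs : 0 ≤ s) (hδ : 0 ≤ δ)
    {u : Cn n} (hu : ‖u‖ = 1) :
    m2 F u s ≤ Real.exp (-δ) * m2 F u (s + δ) + 3 * Real.sqrt 3 * (Real.exp δ - 1) := by
  have hst : s ≤ s + δ := by linarith
  obtain ⟨v, hv, hmaps, hv0, hdv, heq⟩ := exists_transition hF hs hst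
  have h1 := second_transition hF hs hst hv hmaps hv0 hdv heq hu
  have hsub : s - (s + δ) = -δ := by ring
  rw [hsub] at hdv h1
  have h2 := norm_second_le hv (fun z hz => ball_subset_closedBall (hmaps hz)) hv0 hdv
    (Real.exp_le_one_iff.2 (by linarith)) hu
  have h3 : ‖fderiv ℂ (fderiv ℂ (F s)) 0 u u‖ ≤
      Real.exp (-δ) * (Real.exp (-δ) * ‖fderiv ℂ (fderiv ℂ (F (s + δ))) 0 u u‖) +
      Real.exp (s + δ) * (3 * Real.sqrt 3 * (1 - Real.exp (-δ))) := by
    rw [h1]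
    refine (norm_add_le _ _).trans (add_le_add ?_ ?_)
    · rw [norm_smul, norm_smul, Complex.norm_real, Real.norm_of_nonneg (Real.exp_pos _).le]
    · rw [norm_smul, Complex.norm_real, Real.norm_of_nonneg (Real.exp_pos _).le]
      exact mul_le_mul_of_nonneg_left h2 (Real.exp_pos _).le
  rw [m2, m2]
  calc Real.exp (-s) * ‖fderiv ℂ (fderiv ℂ (F s)) 0 u u‖
      ≤ Real.exp (-s) * (Real.exp (-δ) * (Real.exp (-δ) *
        ‖fderiv ℂ (fderiv ℂ (F (s + δ))) 0 u u‖) +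
        Real.exp (s + δ) * (3 * Real.sqrt 3 * (1 - Real.exp (-δ)))) :=
        mul_le_mul_of_nonneg_left h3 (Real.exp_pos _).le
    _ = Real.exp (-δ) * (Real.exp (-(s + δ)) * ‖fderiv ℂ (fderiv ℂ (F (s + δ))) 0 u u‖) +
        3 * Real.sqrt 3 * (Real.exp δ - 1) := by
        have e1 : Real.exp (-(s + δ)) = Real.exp (-s) * Real.exp (-δ) := by
          rw [← Real.exp_add]
          congr 1
          ring
        have e2 : Real.exp (s + δ) = Real.exp s * Real.exp δ := Real.exp_add s δ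
        have e3 : Real.exp (-s) * Real.exp s = 1 := by
          rw [← Real.exp_add]
          simp
        have e4 : Real.exp δ * Real.exp (-δ) = 1 := by
          rw [← Real.exp_add]
          simp
        rw [e1, e2]
        linear_combination (Real.exp δ * (3 * Real.sqrt 3 * (1 - Real.exp (-δ)))) * e3 -
          3 * Real.sqrt 3 * e4

lemma m2_iter {F : ℝ → Cn n → Cn n} (hF : IsLoewnerChain F) {δ : ℝ} (hδ : 0 ≤ δ)
    {u : Cn n} (hu : ‖u‖ = 1) (k : ℕ) :
    m2 F u 0 ≤ Real.exp (-(k * δ)) * m2 F u (k * δ) +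
      3 * Real.sqrt 3 * Real.exp δ * (1 - Real.exp (-(k * δ))) := by
  induction k with
  | zero => simp
  | succ k ih =>
    have hk : (0 : ℝ) ≤ k * δ := by positivity
    have h1 := m2_le hF hk hδ hu
    have h2 : ((k + 1 : ℕ) : ℝ) * δ = k * δ + δ := by push_cast; ring
    rw [h2]
    have e1 : Real.exp (-(k * δ + δ)) = Real.exp (-(k * δ)) * Real.exp (-δ) := by
      rw [← Real.exp_add]
      congr 1
      ring
    have e4 : Real.exp δ * Real.exp (-δ) = 1 := by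
      rw [← Real.exp_add]
      simp
    calc m2 F u 0 ≤ Real.exp (-(k * δ)) * m2 F u (k * δ) +
          3 * Real.sqrt 3 * Real.exp δ * (1 - Real.exp (-(k * δ))) := ih
      _ ≤ Real.exp (-(k * δ)) * (Real.exp (-δ) * m2 F u (k * δ + δ) +
          3 * Real.sqrt 3 * (Real.exp δ - 1)) +
          3 * Real.sqrt 3 * Real.exp δ * (1 - Real.exp (-(k * δ))) :=
          add_le_add_left (mul_le_mul_of_nonneg_left h1 (Real.exp_pos _).le) _
      _ = _ := by
          rw [e1]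
          linear_combination (3 * Real.sqrt 3 * Real.exp (-(k * δ))) * e4

/-- Along a subsequence the quantity `m2` stays bounded. -/
lemma exists_bound {F : ℝ → Cn n → Cn n} (hF : IsLoewnerChain F)
    (hN : IsNormalFamily (fun t z => (Real.exp (-t) : ℂ) • F t z)) {u : Cn n} (hu : ‖u‖ = 1)
    (t : ℕ → ℝ) (ht : ∀ k, 0 ≤ t k) :
    ∃ φ : ℕ → ℕ, StrictMono φ ∧ ∃ B : ℝ, ∀ᶠ k in atTop, m2 F u (t (φ k)) ≤ B := by
  obtain ⟨φ, hφ, G, hG⟩ := hN t ht
  refine ⟨φ, hφ, ?_⟩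
  rw [Metric.tendstoLocallyUniformlyOn_iff] at hG
  obtain ⟨V, hV, hVev⟩ := hG 1 one_pos 0 zero_mem_unitBall
  rw [isOpen_ball.nhdsWithin_eq zero_mem_unitBall] at hV
  obtain ⟨K, hK⟩ := eventually_atTop.1 hVev
  -- the member number `K` is bounded near the origin
  have hc : ContinuousAt (fun z => ((Real.exp (-(t (φ K))) : ℝ) : ℂ) • F (t (φ K)) z) 0 := by
    have h1 : ContinuousAt (F (t (φ K))) 0 :=
      ((hF.univalent _ (ht _)).1.differentiableAt
        (isOpen_ball.mem_nhds zero_mem_unitBall)).continuousAt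
    exact h1.const_smul ((Real.exp (-(t (φ K))) : ℝ) : ℂ)
  have hc1 := Metric.continuousAt_iff.1 hc 1 one_pos
  obtain ⟨r1, hr1, hc2⟩ := hc1
  obtain ⟨r2, hr2, hr2V⟩ := Metric.mem_nhds_iff.1 hV
  obtain ⟨r, hr, hrr1, hrr2, hr1'⟩ : ∃ r : ℝ, 0 < r ∧ r ≤ r1 ∧ r ≤ r2 ∧ r ≤ 1 :=
    ⟨min r1 (min r2 1), by positivity, min_le_left _ _,
      (min_le_right _ _).trans (min_le_left _ _), (min_le_right _ _).trans (min_le_right _ _)⟩
  have hbound : ∀ k, K ≤ k → ∀ z : Cn n, ‖z‖ < r →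
      ‖((Real.exp (-(t (φ k))) : ℝ) : ℂ) • F (t (φ k)) z‖ ≤ 3 := by
    intro k hk z hz
    have hzV : z ∈ V := hr2V (by rw [mem_ball_zero_iff]; linarith)
    have h1 := hK k hk z hzV
    have h2 := hK K le_rfl z hzV
    have h3 := hc2 (show dist z 0 < r1 by rw [dist_zero_right]; linarith)
    rw [hF.map_zero _ (ht _), smul_zero, dist_zero_right] at h3
    rw [dist_comm] at h1
    have h4 : dist (((Real.exp (-(t (φ k))) : ℝ) : ℂ) • F (t (φ k)) z) 0 ≤
        dist (((Real.exp (-(t (φ k))) : ℝ) : ℂ) • F (t (φ k)) z) (G z) +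
        dist (G z) (((Real.exp (-(t (φ K))) : ℝ) : ℂ) • F (t (φ K)) z) +
        dist (((Real.exp (-(t (φ K))) : ℝ) : ℂ) • F (t (φ K)) z) 0 := dist_triangle4 _ _ _ _
    rw [dist_zero_right, dist_zero_right] at h4
    linarith
  refine ⟨2 * 3 / (r / 2) ^ 2, eventually_atTop.2 ⟨K, fun k hk => ?_⟩⟩
  have hdiff := (hF.univalent (t (φ k)) (ht _)).1
  have hline : DifferentiableOn ℂ (fun ζ : ℂ => F (t (φ k)) (ζ • u)) (ball 0 1) :=
    hdiff.comp (fun ζ _ => (hasDerivAt_line u ζ).differentiableAt.differentiableWithinAt)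
      (mapsTo_line hu)
  have hcl : DiffContOnCl ℂ (fun ζ : ℂ => F (t (φ k)) (ζ • u)) (ball 0 (r / 2)) :=
    hline.diffContOnCl_ball (closedBall_subset_ball (by linarith))
  have h1 := Complex.norm_iteratedDeriv_le_of_forall_mem_sphere_norm_le 2
    (half_pos hr) hcl (C := 3 * Real.exp (t (φ k))) (by
      intro ζ hζ
      rw [mem_sphere_zero_iff_norm] at hζ
      have h2 := hbound k hk (ζ • u) (by rw [norm_smul, hu, hζ]; linarith)
      rw [norm_smul, Complex.norm_real, Real.norm_of_nonneg (Real.exp_pos _).le] at h2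
      have h3 : Real.exp (t (φ k)) * Real.exp (-(t (φ k))) = 1 := by
        rw [← Real.exp_add]
        simp
      have h4 := mul_le_mul_of_nonneg_left h2 (Real.exp_pos (t (φ k))).le
      rw [← mul_assoc, h3, one_mul] at h4
      linarith)
  rw [iteratedDeriv_succ, iteratedDeriv_one, deriv_deriv_line hdiff hu] at h1
  rw [m2]
  have h3 : Real.exp (-(t (φ k))) * Real.exp (t (φ k)) = 1 := by
    rw [← Real.exp_add]
    simp
  calc Real.exp (-(t (φ k))) * ‖fderiv ℂ (fderiv ℂ (F (t (φ k)))) 0 u u‖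
      ≤ Real.exp (-(t (φ k))) * ((Nat.factorial 2 : ℝ) * (3 * Real.exp (t (φ k))) /
        (r / 2) ^ 2) := mul_le_mul_of_nonneg_left h1 (Real.exp_pos _).le
    _ = 2 * 3 / (r / 2) ^ 2 * (Real.exp (-(t (φ k))) * Real.exp (t (φ k))) := by
        simp only [Nat.factorial]
        push_cast
        ring
    _ = 2 * 3 / (r / 2) ^ 2 := by rw [h3, mul_one]

/-- The upper bound for the second derivative. -/
theorem norm_second_chain_le {F : ℝ → Cn n → Cn n} (hF : IsLoewnerChain F)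
    (hN : IsNormalFamily (fun t z => (Real.exp (-t) : ℂ) • F t z)) {u : Cn n} (hu : ‖u‖ = 1) :
    ‖fderiv ℂ (fderiv ℂ (F 0)) 0 u u‖ ≤ 3 * Real.sqrt 3 := by
  have key : ∀ δ : ℝ, 0 < δ → m2 F u 0 ≤ 3 * Real.sqrt 3 * Real.exp δ := by
    intro δ hδ
    obtain ⟨φ, hφ, B, hB⟩ := exists_bound hF hN hu (fun k : ℕ => (k : ℝ) * δ)
      (fun k => by positivity)
    have hlim0 : Tendsto (fun k : ℕ => Real.exp (-((φ k : ℝ) * δ))) atTop (𝓝 0) := by
      apply Real.tendsto_exp_neg_atTop_nhds_zero.comp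
      apply Tendsto.atTop_mul_const hδ
      exact tendsto_natCast_atTop_atTop.comp hφ.tendsto_atTop
    have hlim : Tendsto (fun k : ℕ => Real.exp (-((φ k : ℝ) * δ)) * B +
        3 * Real.sqrt 3 * Real.exp δ) atTop (𝓝 (0 * B + 3 * Real.sqrt 3 * Real.exp δ)) :=
      (hlim0.mul_const B).add_const _
    rw [zero_mul, zero_add] at hlim
    refine ge_of_tendsto hlim ?_
    filter_upwards [hB] with k hk
    have h1 := m2_iter hF hδ.le hu (φ k)
    have h2 : Real.exp (-((φ k : ℝ) * δ)) * m2 F u ((φ k : ℝ) * δ) ≤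
        Real.exp (-((φ k : ℝ) * δ)) * B := mul_le_mul_of_nonneg_left hk (Real.exp_pos _).le
    have h3 : 0 ≤ 3 * Real.sqrt 3 * Real.exp δ * Real.exp (-((φ k : ℝ) * δ)) := by positivity
    linarith
  have h0 : m2 F u 0 = ‖fderiv ℂ (fderiv ℂ (F 0)) 0 u u‖ := by
    rw [m2, neg_zero, Real.exp_zero, one_mul]
  rw [← h0]
  have hlim : Tendsto (fun δ : ℝ => 3 * Real.sqrt 3 * Real.exp δ) (𝓝[>] 0)
      (𝓝 (3 * Real.sqrt 3 * Real.exp 0)) := by
    apply Tendsto.mono_left _ nhdsWithin_le_nhds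
    exact (continuous_const.mul Real.continuous_exp).tendsto 0
  rw [Real.exp_zero, mul_one] at hlim
  refine ge_of_tendsto hlim ?_
  filter_upwards [self_mem_nhdsWithin] with δ hδ
  exact key δ hδ

/-- The upper bound for members of `S⁰`. -/
theorem norm_P2_le {f : Cn n → Cn n} (hf : f ∈ S0 n) {u : Cn n} (hu : ‖u‖ = 1) :
    ‖P2 f u‖ ≤ 3 * Real.sqrt 3 / 2 := by
  obtain ⟨F, hF, hN, hEq⟩ := hf
  have h1 : f =ᶠ[𝓝 0] F 0 := hEq.eventuallyEq_of_mem (isOpen_ball.mem_nhds zero_mem_unitBall)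
  have h2 : fderiv ℂ (fderiv ℂ f) 0 = fderiv ℂ (fderiv ℂ (F 0)) 0 := h1.fderiv.fderiv_eq
  rw [P2, h2, norm_smul]
  have h3 := norm_second_chain_le hF hN hu
  have h4 : ‖(1 / 2 : ℂ)‖ = 1 / 2 := by norm_num
  rw [h4]
  linarith

end Pool.Agent.Lib.MP_2306a6_an
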