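import Pool.Agent.Lib.MP_2306a6_an.LocalInverse

/-!
# Osgood's theorem: an injective holomorphic map between spaces of the same dimension has
invertible derivative.
-/

namespace Pool.Agent.Lib.MP_2306a6_an

open Metric Set Filter Topology

/-- Osgood's theorem in dimension `m`. -/
def OsgoodDim (m : ℕ) : Prop :=
  ∀ (E F : Type) [NormedAddCommGroup E] [NormedSpace ℂ E] [FiniteDimensional ℂ E]
    [NormedAddCommGroup F] [NormedSpace ℂ F] [FiniteDimensional ℂ F],
    Module.finrank ℂ E = m → Module.finrank ℂ F = m → ∀ (G : E → F) (U : Set E), IsOpen U →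
    DifferentiableOn ℂ G U → InjOn G U → ∀ a ∈ U, Function.Injective (fderiv ℂ G a)

section rank

variable {E F : Type} [NormedAddCommGroup E] [NormedSpace ℂ E] [FiniteDimensional ℂ E]
    [NormedAddCommGroup F] [NormedSpace ℂ F] [FiniteDimensional ℂ F]

/-- Reduction of the dimension when the derivative does not vanish. -/
lemma injective_of_ne_zero {m : ℕ} (ih : OsgoodDim m)
    (hE : Module.finrank ℂ E = m + 1) (hF : Module.finrank ℂ F = m + 1) {G : E → F} {U : Set E}
    (hU : IsOpen U) (hG : DifferentiableOn ℂ G U) (hinj : InjOn G U) {a : E} (ha : a ∈ U)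
    (hne : fderiv ℂ G a ≠ 0) : Function.Injective (fderiv ℂ G a) := by
  set A := fderiv ℂ G a with hA
  obtain ⟨v0, hv0⟩ : ∃ v, A v ≠ 0 := by
    by_contra hcon
    push Not at hcon
    exact hne (by ext v; simpa using hcon v)
  obtain ⟨ℓ, -, hℓ⟩ := exists_dual_vector ℂ (A v0) (norm_ne_zero_iff.2 hv0)
  have hc : ℓ (A v0) ≠ 0 := by
    rw [hℓ]
    simpa using hv0
  set c : ℂ := ℓ (A v0) with hcdef
  set φ : E →L[ℂ] ℂ := ℓ ∘L A with hφ
  have hφ0 : (φ : E →ₗ[ℂ] ℂ) ≠ 0 := by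
    intro h0
    apply hc
    have := LinearMap.congr_fun h0 v0
    simpa [hφ] using this
  have hℓ0 : (ℓ : F →ₗ[ℂ] ℂ) ≠ 0 := by
    intro h0
    apply hc
    have := LinearMap.congr_fun h0 (A v0)
    simpa using this
  set K : Submodule ℂ E := LinearMap.ker (φ : E →ₗ[ℂ] ℂ) with hK
  set L : Submodule ℂ F := LinearMap.ker (ℓ : F →ₗ[ℂ] ℂ) with hL
  have hKrank : Module.finrank ℂ K = m := by
    have := Module.Dual.finrank_ker_add_one_of_ne_zero (f := (φ : E →ₗ[ℂ] ℂ)) hφ0
    rw [hE] at this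
    exact Nat.succ_injective this
  have hLrank : Module.finrank ℂ L = m := by
    have := Module.Dual.finrank_ker_add_one_of_ne_zero (f := (ℓ : F →ₗ[ℂ] ℂ)) hℓ0
    rw [hF] at this
    exact Nat.succ_injective this
  have hKmem : ∀ x, x ∈ K ↔ ℓ (A x) = 0 := fun x => by simp [hK, hφ]
  have hLmem : ∀ y, y ∈ L ↔ ℓ y = 0 := fun y => by simp [hL]
  -- projections
  set P0 : E →L[ℂ] E := ContinuousLinearMap.id ℂ E - (c⁻¹ • φ).smulRight v0 with hP0
  have hP0a : ∀ x, P0 x = x - (c⁻¹ * ℓ (A x)) • v0 := fun x => by simp [hP0, hφ]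
  set P : E →L[ℂ] K := P0.codRestrict K (by
    intro x
    rw [hKmem, hP0a, map_sub, map_smul, map_sub, map_smul, ← hcdef, smul_eq_mul]
    field_simp
    ring) with hP
  have hPa : ∀ x, ((P x : K) : E) = x - (c⁻¹ * ℓ (A x)) • v0 := fun x => by
    rw [hP, ContinuousLinearMap.coe_codRestrict_apply, hP0a]
  set Q0 : F →L[ℂ] F := ContinuousLinearMap.id ℂ F - (c⁻¹ • ℓ).smulRight (A v0) with hQ0
  have hQ0a : ∀ y, Q0 y = y - (c⁻¹ * ℓ y) • A v0 := fun y => by simp [hQ0]
  set Q : F →L[ℂ] L := Q0.codRestrict L (by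
    intro y
    rw [hLmem, hQ0a, map_sub, map_smul, ← hcdef, smul_eq_mul]
    field_simp
    ring) with hQ
  have hQa : ∀ y, ((Q y : L) : F) = y - (c⁻¹ * ℓ y) • A v0 := fun y => by
    rw [hQ, ContinuousLinearMap.coe_codRestrict_apply, hQ0a]
  -- the straightening map
  set R : ℂ × K →L[ℂ] E := ((c⁻¹ • ContinuousLinearMap.id ℂ ℂ).smulRight v0).coprod K.subtypeL
    with hR
  have hRa : ∀ (t : ℂ) (k : K), R (t, k) = (c⁻¹ * t) • v0 + k := fun t k => by simp [hR]
  have hleft : Function.LeftInverse R (φ.prod P) := by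
    intro x
    rw [ContinuousLinearMap.prod_apply, hRa, hPa]
    simp [hφ]
  have hright : Function.RightInverse R (φ.prod P) := by
    rintro ⟨t, k⟩
    have hk : ℓ (A (k : E)) = 0 := (hKmem _).1 k.2
    have h1 : ℓ (A (R (t, k))) = t := by
      rw [hRa, map_add, map_smul, map_add, map_smul, hk, ← hcdef, smul_eq_mul]
      field_simp
      simp
    rw [ContinuousLinearMap.prod_apply]
    refine Prod.ext ?_ (Subtype.ext ?_)
    · simpa [hφ] using h1
    · rw [hPa, h1, hRa]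
      abel
  set Ψ' : E ≃L[ℂ] ℂ × K := ContinuousLinearEquiv.equivOfInverse (φ.prod P) R hleft hright
    with hΨ'
  set Ψ : E → ℂ × K := fun z => (ℓ (G z) - ℓ (G a), P (z - a)) with hΨ
  have hGa : HasFDerivAt G A a := ((hG a ha).differentiableAt (hU.mem_nhds ha)).hasFDerivAt
  have hΨd : DifferentiableOn ℂ Ψ U := by
    apply DifferentiableOn.prodMk
    · exact (ℓ.differentiable.comp_differentiableOn hG).sub_const _
    · exact (P.differentiable.comp (differentiable_id.sub_const a)).differentiableOn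
  have hΨa : HasFDerivAt Ψ (Ψ' : E →L[ℂ] ℂ × K) a := by
    have h1 : HasFDerivAt (fun z => ℓ (G z) - ℓ (G a)) φ a :=
      (ℓ.hasFDerivAt.comp a hGa).sub_const _
    have h2 : HasFDerivAt (fun z => P (z - a)) P a := by
      have h3 : HasFDerivAt (fun z : E => z - a) (ContinuousLinearMap.id ℂ E) a :=
        (hasFDerivAt_id a).sub_const a
      exact P.hasFDerivAt.comp a h3
    exact h1.prodMk h2
  obtain ⟨W, V, χ, hWo, hVo, hWa, hVa, hVU, hW, hV, hχd, hχa⟩ :=
    exists_local_inverse hU ha hΨd Ψ' hΨa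
  have hΨa0 : Ψ a = (0, 0) := by simp [hΨ]
  rw [hΨa0] at hWa hχa
  have hχ0 : χ (0, 0) = a := by
    have := (hV a hVa).2
    rwa [hΨa0] at this
  set V1 : Set K := {k | ((0 : ℂ), k) ∈ W} with hV1
  have hV1o : IsOpen V1 := hWo.preimage (by fun_prop)
  set G1 : K → L := fun k => Q (G (χ (0, k)) - G a) with hG1
  have hιd : Differentiable ℂ (fun k : K => ((0 : ℂ), k)) :=
    (differentiable_const _).prodMk differentiable_id
  have hG1d : DifferentiableOn ℂ G1 V1 := by
    apply Q.differentiable.comp_differentiableOn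
    apply DifferentiableOn.sub_const
    refine hG.comp (hχd.comp hιd.differentiableOn fun k hk => hk) fun k hk => (hW _ hk).2
  have hfacts : ∀ k ∈ V1, ℓ (G (χ (0, k)) - G a) = 0 ∧ P (χ (0, k) - a) = k := by
    intro k hk
    have h1 := (hW _ hk).1
    rw [hΨ] at h1
    simp only [Prod.mk.injEq] at h1
    exact ⟨by rw [map_sub]; exact h1.1, h1.2⟩
  have hG1inj : InjOn G1 V1 := by
    intro k hk k' hk' heq
    have h1 := hfacts k hk
    have h2 := hfacts k' hk'
    have h3 : ((G1 k : L) : F) = (G1 k' : L) := by rw [heq]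
    rw [hG1] at h3
    simp only at h3
    rw [hQa, hQa, h1.1, h2.1] at h3
    simp only [mul_zero, zero_smul, sub_zero, sub_left_inj] at h3
    have h4 := hinj (hW _ hk).2 (hW _ hk').2 h3
    rw [← h1.2, ← h2.2, h4]
  have h0V1 : (0 : K) ∈ V1 := hWa
  have hfd : HasFDerivAt G1 (Q ∘L (A ∘L ((Ψ'.symm : ℂ × K →L[ℂ] E) ∘L
      ContinuousLinearMap.inr ℂ ℂ K))) 0 := by
    have h1 : HasFDerivAt (fun k : K => ((0 : ℂ), k)) (ContinuousLinearMap.inr ℂ ℂ K) 0 :=
      (hasFDerivAt_const (0 : ℂ) (0 : K)).prodMk (hasFDerivAt_id 0)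
    have h2 : HasFDerivAt (fun k : K => χ (0, k)) ((Ψ'.symm : ℂ × K →L[ℂ] E) ∘L
        ContinuousLinearMap.inr ℂ ℂ K) 0 := hχa.comp (0 : K) h1
    have h3 : HasFDerivAt G A (χ (0, 0)) := by rwa [hχ0]
    have h4 : HasFDerivAt (fun k : K => G (χ (0, k)) - G a) (A ∘L ((Ψ'.symm : ℂ × K →L[ℂ] E) ∘L
        ContinuousLinearMap.inr ℂ ℂ K)) 0 := (h3.comp (0 : K) h2).sub_const _
    exact Q.hasFDerivAt.comp (0 : K) h4
  have hinj1 := ih K L hKrank hLrank G1 V1 hV1o hG1d hG1inj 0 h0V1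
  rw [hfd.fderiv] at hinj1
  rw [injective_iff_map_eq_zero]
  intro x hx
  have hxK : x ∈ K := by
    rw [hKmem, hx, map_zero]
  have h5 : (Q ∘L (A ∘L ((Ψ'.symm : ℂ × K →L[ℂ] E) ∘L
      ContinuousLinearMap.inr ℂ ℂ K))) ⟨x, hxK⟩ = 0 := by
    have h6 : Ψ'.symm ((0 : ℂ), (⟨x, hxK⟩ : K)) = x := by
      have h7 : Ψ'.symm ((0 : ℂ), (⟨x, hxK⟩ : K)) = R ((0 : ℂ), (⟨x, hxK⟩ : K)) := rfl
      rw [h7, hRa]
      simp
    simp only [ContinuousLinearMap.comp_apply, ContinuousLinearMap.inr_apply,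
      ContinuousLinearEquiv.coe_coe, h6, hx, map_zero]
  have h8 : (⟨x, hxK⟩ : K) = 0 := by
    apply hinj1
    rw [h5, map_zero]
  simpa using congrArg Subtype.val h8

end rank

section zero

/-- Iterated directional derivatives. -/
inductive IsDer {E F : Type} [NormedAddCommGroup E] [NormedSpace ℂ E] [NormedAddCommGroup F]
    [NormedSpace ℂ F] (G : E → F) : ℕ → (E → F) → Prop
  | zero : IsDer G 0 G
  | succ {j : ℕ} {ψ : E → F} (h : IsDer G j ψ) (v : E) :
      IsDer G (j + 1) (fun z => fderiv ℂ ψ z v)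

variable {E F : Type} [NormedAddCommGroup E] [NormedSpace ℂ E] [FiniteDimensional ℂ E]
    [NormedAddCommGroup F] [NormedSpace ℂ F] [FiniteDimensional ℂ F]

lemma IsDer.differentiableOn {G : E → F} {U : Set E} (hU : IsOpen U)
    (hG : DifferentiableOn ℂ G U) {j : ℕ} {ψ : E → F} (h : IsDer G j ψ) :
    DifferentiableOn ℂ ψ U := by
  have : CompleteSpace F := FiniteDimensional.complete ℂ F
  induction h with
  | zero => exact hG
  | succ h v ih => exact differentiableOn_fderiv_apply hU ih v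

/-- Some iterated derivative of an injective holomorphic map does not vanish. -/
lemma exists_isDer_ne_zero {G : E → F} {U : Set E} (hU : IsOpen U)
    (hG : DifferentiableOn ℂ G U) (hinj : InjOn G U) {a : E} (ha : a ∈ U) (hne : ∃ v : E, v ≠ 0) :
    ∃ j ψ, 1 ≤ j ∧ IsDer G j ψ ∧ ψ a ≠ 0 := by
  have : CompleteSpace F := FiniteDimensional.complete ℂ F
  by_contra hcon
  push Not at hcon
  obtain ⟨v, hv⟩ := hne
  set dd : ℕ → E → F := fun j => Nat.rec G (fun _ ψ z => fderiv ℂ ψ z v) j with hdd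
  have hdd0 : dd 0 = G := rfl
  have hdds : ∀ j, dd (j + 1) = fun z => fderiv ℂ (dd j) z v := fun j => rfl
  have hder : ∀ j, IsDer G j (dd j) := by
    intro j
    induction j with
    | zero => exact IsDer.zero
    | succ j ih => exact IsDer.succ ih v
  have hlin : ∀ ζ : ℂ, HasDerivAt (fun ζ : ℂ => a + ζ • v) v ζ := by
    intro ζ
    simpa using ((hasDerivAt_id ζ).smul_const v).const_add a
  set O : Set ℂ := {ζ | a + ζ • v ∈ U} with hO
  have hOo : IsOpen O := hU.preimage (by fun_prop)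
  have h0O : (0 : ℂ) ∈ O := by simpa [hO] using ha
  have hit : ∀ j, ∀ ζ ∈ O, iteratedDeriv j (fun ζ : ℂ => G (a + ζ • v)) ζ = dd j (a + ζ • v) := by
    intro j
    induction j with
    | zero => intro ζ _; simp [hdd0]
    | succ j ih =>
      intro ζ hζ
      rw [iteratedDeriv_succ]
      have h1 : iteratedDeriv j (fun ζ : ℂ => G (a + ζ • v)) =ᶠ[𝓝 ζ]
          fun ζ => dd j (a + ζ • v) := by
        filter_upwards [hOo.mem_nhds hζ] with ξ hξ
        exact ih ξ hξ
      rw [h1.deriv_eq, hdds]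
      have h2 : HasFDerivAt (dd j) (fderiv ℂ (dd j) (a + ζ • v)) (a + ζ • v) :=
        (((hder j).differentiableOn hU hG _ hζ).differentiableAt (hU.mem_nhds hζ)).hasFDerivAt
      exact (h2.comp_hasDerivAt ζ (hlin ζ)).deriv
  obtain ⟨ε, hε, hball⟩ := Metric.isOpen_iff.1 hOo 0 h0O
  have hg : DifferentiableOn ℂ (fun ζ : ℂ => G (a + ζ • v)) (ball 0 ε) := by
    intro ζ hζ
    have h1 := (hG _ (hball hζ)).differentiableAt (hU.mem_nhds (hball hζ))
    exact (h1.comp ζ (hlin ζ).differentiableAt).differentiableWithinAt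
  have hmem : ((ε / 2 : ℝ) : ℂ) ∈ ball (0 : ℂ) ε := by
    rw [mem_ball_zero_iff, Complex.norm_real, Real.norm_of_nonneg (by positivity)]
    linarith
  have hsum := Complex.hasSum_taylorSeries_on_ball hg hmem
  have hsum2 : HasSum (fun n : ℕ => ((n.factorial : ℂ)⁻¹) • (((ε / 2 : ℝ) : ℂ) - 0) ^ n •
      iteratedDeriv n (fun ζ : ℂ => G (a + ζ • v)) 0) (G a) := by
    have h1 := hasSum_single (f := fun n : ℕ => ((n.factorial : ℂ)⁻¹) •
      (((ε / 2 : ℝ) : ℂ) - 0) ^ n • iteratedDeriv n (fun ζ : ℂ => G (a + ζ • v)) 0) 0 (by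
      intro n hn
      have h2 := hit n 0 h0O
      rw [h2, zero_smul, add_zero, hcon n (dd n) (Nat.one_le_iff_ne_zero.2 hn) (hder n),
        smul_zero, smul_zero])
    simpa using h1
  have heq := hsum.unique hsum2
  have h3 := hinj (hball hmem) ha heq
  have h4 : ((ε / 2 : ℝ) : ℂ) • v = 0 := by simpa using h3
  rcases smul_eq_zero.1 h4 with h5 | h5
  · have h6 : (ε / 2 : ℝ) = 0 := by exact_mod_cast h5
    linarith
  · exact hv h5

end zero

end Pool.Agent.Lib.MP_2306a6_an
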