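import Pool.Agent.Lib.MP_2306a6_an.Osgood

/-!
# Osgood's theorem, second part
-/

namespace Pool.Agent.Lib.MP_2306a6_an

open Metric Set Filter Topology

variable {E F : Type} [NormedAddCommGroup E] [NormedSpace ℂ E] [FiniteDimensional ℂ E]
    [NormedAddCommGroup F] [NormedSpace ℂ F] [FiniteDimensional ℂ F]

omit [FiniteDimensional ℂ E] in
lemma differentiableOn_finset_prod {ι : Type} (t : Finset ι) {f : ι → E → ℂ} {U : Set E}
    (h : ∀ i, DifferentiableOn ℂ (f i) U) : DifferentiableOn ℂ (fun z => ∏ i ∈ t, f i z) U := by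
  classical
  induction t using Finset.induction_on with
  | empty => simp
  | insert i t hi ih =>
    simp only [Finset.prod_insert hi]
    exact (h i).mul ih

omit [FiniteDimensional ℂ E] [FiniteDimensional ℂ F] in
lemma isDer_cases {G : E → F} : ∀ {j : ℕ} {φ : E → F}, IsDer G j φ → 1 ≤ j →
    ∃ k ψ v, j = k + 1 ∧ IsDer G k ψ ∧ φ = fun z => fderiv ℂ ψ z v := by
  intro j φ h hj
  cases h with
  | zero => omega
  | succ h v => exact ⟨_, _, v, rfl, h, rfl⟩

/-- A holomorphic function detecting the points where the derivative is singular. -/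
lemma exists_det_function (hdim : Module.finrank ℂ E = Module.finrank ℂ F)
    (hpos : 0 < Module.finrank ℂ E) {G : E → F} {U : Set E} (hU : IsOpen U)
    (hG : DifferentiableOn ℂ G U) :
    ∃ δ : E → ℂ, DifferentiableOn ℂ δ U ∧ (∀ z ∈ U, fderiv ℂ G z = 0 → δ z = 0) ∧
      ∀ z ∈ U, δ z = 0 → ¬ Function.Injective (fderiv ℂ G z) := by
  have : CompleteSpace F := FiniteDimensional.complete ℂ F
  set β : F ≃ₗ[ℂ] E := LinearEquiv.ofFinrankEq F E hdim.symm with hβ
  set b := Module.finBasis ℂ E with hb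
  set M : E → E →ₗ[ℂ] E := fun z => (β : F →ₗ[ℂ] E) ∘ₗ (fderiv ℂ G z : E →ₗ[ℂ] F) with hM
  refine ⟨fun z => LinearMap.det (M z), ?_, ?_, ?_⟩
  · have h1 : (fun z => LinearMap.det (M z)) = fun z => (LinearMap.toMatrix b b (M z)).det := by
      funext z
      rw [LinearMap.det_toMatrix]
    rw [h1]
    have h2 : ∀ i j, DifferentiableOn ℂ (fun z => LinearMap.toMatrix b b (M z) i j) U := by
      intro i j
      have h3 : (fun z => LinearMap.toMatrix b b (M z) i j) =
          fun z => (LinearMap.toContinuousLinearMap ((b.coord i) ∘ₗ (β : F →ₗ[ℂ] E)))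
            (fderiv ℂ G z (b j)) := by
        funext z
        rw [LinearMap.toMatrix_apply]
        simp [hM]
      rw [h3]
      exact (ContinuousLinearMap.differentiable _).comp_differentiableOn
        (differentiableOn_fderiv_apply hU hG (b j))
    simp only [Matrix.det_apply]
    apply DifferentiableOn.fun_sum
    intro σ _
    apply DifferentiableOn.const_smul
    exact differentiableOn_finset_prod _ fun i => h2 _ _
  · intro z _ hz
    have h1 : M z = 0 := by
      rw [hM]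
      simp [hz]
    simp only [h1]
    rw [LinearMap.det_zero, zero_pow hpos.ne']
  · intro z _ hz hinj
    have h1 := LinearMap.bot_lt_ker_of_det_eq_zero hz
    apply h1.ne'
    rw [LinearMap.ker_eq_bot]
    exact β.injective.comp hinj

/-- The derivative of an injective holomorphic map in dimension at least two does not vanish. -/
lemma fderiv_ne_zero_of_two_le {m : ℕ} (ih : OsgoodDim (m + 1))
    (hE : Module.finrank ℂ E = m + 2) (hF : Module.finrank ℂ F = m + 2) {G : E → F} {U : Set E}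
    (hU : IsOpen U) (hG : DifferentiableOn ℂ G U) (hinj : InjOn G U) {a : E} (ha : a ∈ U) :
    fderiv ℂ G a ≠ 0 := by
  intro ha0
  have : CompleteSpace F := FiniteDimensional.complete ℂ F
  have hnt : Nontrivial E := Module.nontrivial_of_finrank_pos (R := ℂ) (by omega)
  obtain ⟨δ, hδd, hδ1, hδ2⟩ := exists_det_function (E := E) (F := F) (by omega) (by omega) hU hG
  have hδ3 : ∀ z ∈ U, δ z = 0 → fderiv ℂ G z = 0 := by
    intro z hz h0
    by_contra hne
    exact hδ2 z hz h0 (injective_of_ne_zero ih hE hF hU hG hinj hz hne)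
  -- minimal order
  have hex : ∃ j : ℕ, 1 ≤ j ∧ ∃ z ∈ U, fderiv ℂ G z = 0 ∧ ∃ ψ, IsDer G j ψ ∧ ψ z ≠ 0 := by
    obtain ⟨j, ψ, hj, hψ, hne⟩ := exists_isDer_ne_zero hU hG hinj ha (exists_ne (0 : E))
    exact ⟨j, hj, a, ha, ha0, ψ, hψ, hne⟩
  classical
  set k0 := Nat.find hex with hk0
  obtain ⟨hk1, z0, hz0, hz00, ψ1, hψ1, hne1⟩ := Nat.find_spec hex
  rw [← hk0] at hk1 hψ1
  obtain ⟨k, ψ, v1, hk, hψ, rfl⟩ := isDer_cases hψ1 hk1
  have hkpos : 1 ≤ k := by
    by_contra hk'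
    have hk0' : k = 0 := by omega
    subst hk0'
    cases hψ
    apply hne1
    simp [hz00]
  have hψZ : ∀ z ∈ U, fderiv ℂ G z = 0 → ψ z = 0 := by
    intro z hz hz'
    by_contra hne
    exact Nat.find_min hex (m := k) (by omega) ⟨hkpos, z, hz, hz', ψ, hψ, hne⟩
  have hψd : DifferentiableOn ℂ ψ U := hψ.differentiableOn hU hG
  -- scalar function
  obtain ⟨ℓ, -, hℓ⟩ := exists_dual_vector ℂ (fderiv ℂ ψ z0 v1) (norm_ne_zero_iff.2 hne1)
  set s : E → ℂ := fun z => ℓ (ψ z) with hs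
  have hsd : DifferentiableOn ℂ s U := ℓ.differentiable.comp_differentiableOn hψd
  have hsZ : ∀ z ∈ U, fderiv ℂ G z = 0 → s z = 0 := by
    intro z hz hz'
    rw [hs]
    simp only
    rw [hψZ z hz hz', map_zero]
  set σ : E →L[ℂ] ℂ := ℓ ∘L fderiv ℂ ψ z0 with hσ
  have hsσ : HasFDerivAt s σ z0 :=
    ℓ.hasFDerivAt.comp z0 ((hψd z0 hz0).differentiableAt (hU.mem_nhds hz0)).hasFDerivAt
  set κ : ℂ := σ v1 with hκ
  have hκ0 : κ ≠ 0 := by
    rw [hκ, hσ, ContinuousLinearMap.comp_apply, hℓ]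
    simpa using hne1
  obtain ⟨p1, hp1, hp10⟩ : ∃ p : E, σ p = 0 ∧ p ≠ 0 := by
    have hσ0 : (σ : E →ₗ[ℂ] ℂ) ≠ 0 := by
      intro h0
      apply hκ0
      have := LinearMap.congr_fun h0 v1
      simpa using this
    have h1 := Module.Dual.finrank_ker_add_one_of_ne_zero (f := (σ : E →ₗ[ℂ] ℂ)) hσ0
    have h2 : LinearMap.ker (σ : E →ₗ[ℂ] ℂ) ≠ ⊥ := by
      intro h3
      rw [h3, finrank_bot] at h1
      omega
    obtain ⟨p, hp, hp0⟩ := Submodule.exists_mem_ne_zero_of_ne_bot h2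
    exact ⟨p, by simpa using hp, hp0⟩
  -- the slice
  set cL : ℂ × ℂ →L[ℂ] E := ((ContinuousLinearMap.id ℂ ℂ).smulRight p1).coprod
    ((ContinuousLinearMap.id ℂ ℂ).smulRight v1) with hcL
  have hcLa : ∀ x : ℂ × ℂ, cL x = x.1 • p1 + x.2 • v1 := fun x => by simp [hcL]
  set c : ℂ × ℂ → E := fun x => z0 + cL x with hc
  have hcd : Differentiable ℂ c := cL.differentiable.const_add z0
  have hcf : ∀ x, HasFDerivAt c cL x := fun x => cL.hasFDerivAt.const_add z0
  set O : Set (ℂ × ℂ) := c ⁻¹' U with hO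
  have hOo : IsOpen O := hU.preimage hcd.continuous
  have hc0 : c (0, 0) = z0 := by simp [hc, hcLa]
  have h0O : ((0 : ℂ), (0 : ℂ)) ∈ O := by
    rw [hO, mem_preimage, hc0]
    exact hz0
  set Θ : ℂ × ℂ → ℂ × ℂ := fun x => (x.1, s (c x)) with hΘ
  have hΘd : DifferentiableOn ℂ Θ O := by
    apply DifferentiableOn.prodMk
    · exact differentiable_fst.differentiableOn
    · exact hsd.comp hcd.differentiableOn fun x hx => hx
  set T : ℂ × ℂ →L[ℂ] ℂ × ℂ := (ContinuousLinearMap.fst ℂ ℂ ℂ).prod (σ ∘L cL) with hT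
  have hTa : ∀ x : ℂ × ℂ, T x = (x.1, x.2 * κ) := by
    intro x
    rw [hT, ContinuousLinearMap.prod_apply]
    refine Prod.ext rfl ?_
    simp only [ContinuousLinearMap.comp_apply, hcLa, map_add, map_smul, hp1, smul_eq_mul,
      mul_zero, zero_add]
    rw [← hκ]
  set T' : ℂ × ℂ →L[ℂ] ℂ × ℂ := (ContinuousLinearMap.fst ℂ ℂ ℂ).prod
    (κ⁻¹ • ContinuousLinearMap.snd ℂ ℂ ℂ) with hT'
  have hT'a : ∀ x : ℂ × ℂ, T' x = (x.1, κ⁻¹ * x.2) := fun x => by simp [hT']
  set Te : (ℂ × ℂ) ≃L[ℂ] ℂ × ℂ := ContinuousLinearEquiv.equivOfInverse T T'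
    (by
      intro x
      rw [hTa, hT'a]
      refine Prod.ext rfl ?_
      simp only
      field_simp)
    (by
      intro x
      rw [hT'a, hTa]
      refine Prod.ext rfl ?_
      simp only
      field_simp) with hTe
  have hΘa : HasFDerivAt Θ (Te : ℂ × ℂ →L[ℂ] ℂ × ℂ) ((0 : ℂ), (0 : ℂ)) := by
    have h1 : HasFDerivAt (fun x : ℂ × ℂ => x.1) (ContinuousLinearMap.fst ℂ ℂ ℂ)
        ((0 : ℂ), (0 : ℂ)) := hasFDerivAt_fst
    have h2 : HasFDerivAt (fun x : ℂ × ℂ => s (c x)) (σ ∘L cL) ((0 : ℂ), (0 : ℂ)) := by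
      have h3 : HasFDerivAt s σ (c (0, 0)) := by rwa [hc0]
      exact h3.comp _ (hcf _)
    exact h1.prodMk h2
  obtain ⟨W, V, χ, hWo, hVo, hWa, hVa, hVO, hW, hV, hχd, -⟩ :=
    exists_local_inverse hOo h0O hΘd Te hΘa
  have hs0 : s z0 = 0 := hsZ z0 hz0 hz00
  have hΘ0 : Θ (0, 0) = (0, 0) := by
    rw [hΘ]
    simp [hc0, hs0]
  rw [hΘ0] at hWa
  have hχ0 : χ (0, 0) = (0, 0) := by
    have := (hV _ hVa).2
    rwa [hΘ0] at this
  -- uniqueness
  have huniq : ∀ x ∈ V, fderiv ℂ G (c x) = 0 → (x.1, (0 : ℂ)) ∈ W ∧ χ (x.1, 0) = x := by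
    intro x hx hx0
    have h1 := hV x hx
    have h2 : Θ x = (x.1, 0) := by
      rw [hΘ]
      simp only
      rw [hsZ _ (hVO hx) hx0]
    rw [h2] at h1
    exact h1
  -- a small bidisc
  obtain ⟨ρ, hρ, hρV⟩ : ∃ ρ > 0, ∀ x : ℂ × ℂ, ‖x.1‖ ≤ ρ → ‖x.2‖ ≤ ρ → x ∈ V := by
    obtain ⟨ε, hε, hb⟩ := Metric.isOpen_iff.1 hVo _ hVa
    refine ⟨ε / 2, by positivity, fun x h1 h2 => hb ?_⟩
    rw [mem_ball, dist_eq_norm]
    rw [Prod.norm_def]
    simp only [Prod.fst_sub, Prod.snd_sub, sub_zero]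
    exact max_lt (by linarith) (by linarith)
  set D : ℂ × ℂ → ℂ := fun x => δ (c x) with hD
  have hDd : DifferentiableOn ℂ D O := hδd.comp hcd.differentiableOn fun x hx => hx
  have hD0 : D (0, 0) = 0 := by
    rw [hD]
    simp only
    rw [hc0]
    exact hδ1 z0 hz0 hz00
  have hDne : ∀ ζ : ℂ, ‖ζ‖ = ρ → D (0, ζ) ≠ 0 := by
    intro ζ hζ h0
    have hmem : ((0 : ℂ), ζ) ∈ V := hρV _ (by simpa using hρ.le) hζ.le
    have h1 := huniq _ hmem (hδ3 _ (hVO hmem) h0)
    simp only at h1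
    rw [hχ0] at h1
    have h2 : ζ = 0 := (congrArg Prod.snd h1.2).symm
    rw [h2, norm_zero] at hζ
    linarith
  have hKcomp : IsCompact ((closedBall (0 : ℂ) ρ) ×ˢ (closedBall (0 : ℂ) ρ)) :=
    (isCompact_closedBall _ _).prod (isCompact_closedBall _ _)
  have hDc : ContinuousOn D ((closedBall (0 : ℂ) ρ) ×ˢ (closedBall (0 : ℂ) ρ)) := by
    apply hDd.continuousOn.mono
    rintro ⟨x, y⟩ ⟨hx, hy⟩
    exact hVO (hρV _ (by simpa using hx) (by simpa using hy))
  obtain ⟨μ, hμ, hμD⟩ : ∃ μ > 0, ∀ ζ : ℂ, ‖ζ‖ = ρ → μ ≤ ‖D (0, ζ)‖ := by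
    have hsph : IsCompact (sphere (0 : ℂ) ρ) := isCompact_sphere _ _
    have hcont : ContinuousOn (fun ζ : ℂ => ‖D (0, ζ)‖) (sphere (0 : ℂ) ρ) := by
      apply ContinuousOn.norm
      apply hDc.comp (by fun_prop)
      intro ζ hζ
      refine ⟨mem_closedBall_self hρ.le, sphere_subset_closedBall hζ⟩
    obtain ⟨ζ0, hζ0, hmin⟩ := hsph.exists_isMinOn (NormedSpace.sphere_nonempty.2 hρ.le) hcont
    refine ⟨‖D (0, ζ0)‖, norm_pos_iff.2 (hDne _ (by simpa using hζ0)), fun ζ hζ => ?_⟩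
    exact hmin (by simpa using hζ)
  obtain ⟨η, hη, hunif⟩ := Metric.uniformContinuousOn_iff.1
    (hKcomp.uniformContinuousOn_of_continuous hDc) (μ / 2) (by positivity)
  have hexz : ∀ τ : ℂ, ‖τ‖ < min η ρ → (τ, (0 : ℂ)) ∈ W ∧ fderiv ℂ G (c (χ (τ, 0))) = 0 ∧
      (χ (τ, 0)).1 = τ := by
    intro τ hτ
    have hτη : ‖τ‖ < η := hτ.trans_le (min_le_left _ _)
    have hτρ : ‖τ‖ < ρ := hτ.trans_le (min_le_right _ _)
    have hclose : ∀ ζ : ℂ, ‖ζ‖ ≤ ρ → ‖D (τ, ζ) - D (0, ζ)‖ < μ / 2 := by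
      intro ζ hζ
      have h1 := hunif (τ, ζ) ⟨by simpa using hτρ.le, by simpa using hζ⟩ (0, ζ)
        ⟨mem_closedBall_self hρ.le, by simpa using hζ⟩ (by
          rw [dist_eq_norm, Prod.norm_def]
          simp only [Prod.fst_sub, Prod.snd_sub, sub_zero, sub_self, norm_zero]
          exact max_lt hτη hη)
      rwa [dist_eq_norm] at h1
    obtain ⟨ζ, hζ, hζ0⟩ : ∃ ζ : ℂ, ‖ζ‖ ≤ ρ ∧ D (τ, ζ) = 0 := by
      by_contra hcon
      push Not at hcon
      have hdiffτ : DifferentiableOn ℂ (fun ζ : ℂ => D (τ, ζ)) (closedBall 0 ρ) := by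
        refine hDd.comp (differentiable_const τ |>.prodMk differentiable_id).differentiableOn ?_
        intro ζ hζ
        exact hVO (hρV _ hτρ.le (by simpa using hζ))
      have hinvd : DifferentiableOn ℂ (fun ζ : ℂ => (D (τ, ζ))⁻¹) (closedBall 0 ρ) :=
        hdiffτ.inv fun ζ hζ => hcon ζ (by simpa using hζ)
      have hcl : DiffContOnCl ℂ (fun ζ : ℂ => (D (τ, ζ))⁻¹) (ball 0 ρ) :=
        (hinvd.mono closure_ball_subset_closedBall).diffContOnCl
      have hbd := Complex.norm_le_of_forall_mem_frontier_norm_le (C := 2 / μ)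
        isBounded_ball hcl (z := 0) (by
          intro ζ hζ
          rw [frontier_ball _ hρ.ne'] at hζ
          have hζρ : ‖ζ‖ = ρ := by simpa using hζ
          have h1 := hclose ζ hζρ.le
          have h2 := hμD ζ hζρ
          have h3 : μ / 2 ≤ ‖D (τ, ζ)‖ := by
            have h4 : ‖D (0, ζ)‖ ≤ ‖D (τ, ζ)‖ + ‖D (τ, ζ) - D (0, ζ)‖ := by
              have h5 : D (0, ζ) = D (τ, ζ) - (D (τ, ζ) - D (0, ζ)) := by ring
              calc ‖D (0, ζ)‖ = ‖D (τ, ζ) - (D (τ, ζ) - D (0, ζ))‖ := by rw [← h5]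
                _ ≤ _ := norm_sub_le _ _
            linarith
          rw [norm_inv]
          rw [inv_le_comm₀ (by linarith) (by positivity), inv_div]
          exact h3)
        (subset_closure (mem_ball_self hρ))
      have h6 := hclose 0 (by simpa using hρ.le)
      rw [hD0, sub_zero] at h6
      have hDτ0 : D (τ, 0) ≠ 0 := hcon 0 (by simpa using hρ.le)
      rw [norm_inv, inv_le_comm₀ (norm_pos_iff.2 hDτ0) (by positivity), inv_div] at hbd
      linarith
    have hmem : (τ, ζ) ∈ V := hρV _ hτρ.le hζ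
    have hzero := hδ3 _ (hVO hmem) hζ0
    have h1 := huniq _ hmem hzero
    simp only at h1
    refine ⟨h1.1, ?_, ?_⟩
    · rw [h1.2]
      exact hzero
    · rw [h1.2]
  -- `G` is constant along the curve
  set q : ℂ → F := fun τ => G (c (χ (τ, 0))) with hq
  have hιd : Differentiable ℂ (fun τ : ℂ => (τ, (0 : ℂ))) :=
    differentiable_id.prodMk (differentiable_const _)
  have hqder : ∀ τ ∈ ball (0 : ℂ) (min η ρ), HasFDerivAt q (0 : ℂ →L[ℂ] F) τ := by
    intro τ hτ
    obtain ⟨h1, h2, -⟩ := hexz τ (by simpa using hτ)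
    have h3 : DifferentiableAt ℂ χ (τ, 0) := (hχd _ h1).differentiableAt (hWo.mem_nhds h1)
    have h4 : DifferentiableAt ℂ (fun τ : ℂ => c (χ (τ, 0))) τ :=
      (hcd _).comp τ (h3.comp τ (hιd τ))
    have h5 : HasFDerivAt G (fderiv ℂ G (c (χ (τ, 0)))) (c (χ (τ, 0))) :=
      ((hG _ (hW _ h1).2).differentiableAt (hU.mem_nhds (hW _ h1).2)).hasFDerivAt
    have h6 := h5.comp τ h4.hasFDerivAt
    rw [h2, ContinuousLinearMap.zero_comp] at h6
    exact h6
  have hmin : 0 < min η ρ := lt_min hη hρ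
  set τ1 : ℂ := ((min η ρ / 2 : ℝ) : ℂ) with hτ1
  have hτ1n : ‖τ1‖ = min η ρ / 2 := by
    rw [hτ1, Complex.norm_real, Real.norm_of_nonneg (by positivity)]
  have hτ1m : τ1 ∈ ball (0 : ℂ) (min η ρ) := by
    rw [mem_ball_zero_iff, hτ1n]
    linarith
  have hqc : q τ1 = q 0 := by
    apply isOpen_ball.is_const_of_fderiv_eq_zero (𝕜 := ℂ) (s := ball (0 : ℂ) (min η ρ))
      (convex_ball _ _).isPreconnected
    · intro τ hτ
      exact (hqder τ hτ).differentiableAt.differentiableWithinAt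
    · intro τ hτ
      exact (hqder τ hτ).fderiv
    · exact hτ1m
    · exact mem_ball_self hmin
  obtain ⟨h1, -, h3⟩ := hexz τ1 (by simpa using hτ1m)
  have h4 : c (χ (τ1, 0)) ∈ U := (hW _ h1).2
  have h5 : c (χ (τ1, 0)) = z0 := by
    apply hinj h4 hz0
    have h6 : q 0 = G z0 := by
      rw [hq]
      simp only
      rw [hχ0, hc0]
    rw [← h6, ← hqc]
  have h7 : cL (χ (τ1, 0)) = 0 := by
    rw [hc] at h5
    simpa using h5
  rw [hcLa, h3] at h7
  have h8 : σ (τ1 • p1 + (χ (τ1, 0)).2 • v1) = 0 := by rw [h7, map_zero]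
  rw [map_add, map_smul, map_smul, hp1, smul_zero, zero_add, ← hκ, smul_eq_mul] at h8
  have h9 : (χ (τ1, 0)).2 = 0 := (mul_eq_zero.1 h8).resolve_right hκ0
  rw [h9, zero_smul, add_zero] at h7
  rcases smul_eq_zero.1 h7 with h10 | h10
  · rw [h10, norm_zero] at hτ1n
    linarith
  · exact hp10 h10

/-- The one-dimensional case. -/
lemma fderiv_ne_zero_of_one (hE : Module.finrank ℂ E = 1) (hF : Module.finrank ℂ F = 1)
    {G : E → F} {U : Set E} (hU : IsOpen U) (hG : DifferentiableOn ℂ G U) (hinj : InjOn G U)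
    {a : E} (ha : a ∈ U) : fderiv ℂ G a ≠ 0 := by
  intro h0
  set α : ℂ ≃L[ℂ] E := ContinuousLinearEquiv.ofFinrankEq (by rw [hE, Module.finrank_self]) with hα
  set β : F ≃L[ℂ] ℂ := ContinuousLinearEquiv.ofFinrankEq (by rw [hF, Module.finrank_self]) with hβ
  set g : ℂ → ℂ := fun z => β (G (α z)) with hg
  have hUo : IsOpen (α ⁻¹' U) := hU.preimage α.continuous
  have hgd : DifferentiableOn ℂ g (α ⁻¹' U) :=
    β.differentiable.comp_differentiableOn (hG.comp α.differentiable.differentiableOn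
      fun x hx => hx)
  have hginj : InjOn g (α ⁻¹' U) := by
    intro x hx y hy hxy
    exact α.injective (hinj hx hy (β.injective hxy))
  have hmem : α.symm a ∈ α ⁻¹' U := by simpa using ha
  apply deriv_ne_zero_of_injOn hUo hgd hginj hmem
  have h1 : HasFDerivAt G (0 : E →L[ℂ] F) (α (α.symm a)) := by
    rw [α.apply_symm_apply, ← h0]
    exact ((hG a ha).differentiableAt (hU.mem_nhds ha)).hasFDerivAt
  have h2 : HasFDerivAt g ((β : F →L[ℂ] ℂ) ∘L ((0 : E →L[ℂ] F) ∘L (α : ℂ →L[ℂ] E)))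
      (α.symm a) := β.hasFDerivAt.comp _ (h1.comp _ α.hasFDerivAt)
  have h3 := h2.hasDerivAt.deriv
  rw [h3]
  simp

/-- **Osgood's theorem** in all dimensions. -/
theorem osgoodDim : ∀ m, OsgoodDim m := by
  intro m
  induction m with
  | zero =>
    intro E F _ _ _ _ _ _ hE hF G U hU hG hinj a ha
    have hs : Subsingleton E := Module.finrank_zero_iff.1 hE
    exact Function.injective_of_subsingleton _
  | succ m ih =>
    intro E F _ _ _ _ _ _ hE hF G U hU hG hinj a ha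
    apply injective_of_ne_zero ih hE hF hU hG hinj ha
    cases m with
    | zero => exact fderiv_ne_zero_of_one hE hF hU hG hinj ha
    | succ m => exact fderiv_ne_zero_of_two_le ih hE hF hU hG hinj ha

/-- **Osgood's theorem**: the derivative of an injective holomorphic map between spaces of the same
finite dimension is invertible at every point. -/
theorem injective_fderiv_of_injOn (hEF : Module.finrank ℂ E = Module.finrank ℂ F) {G : E → F}
    {U : Set E} (hU : IsOpen U) (hG : DifferentiableOn ℂ G U) (hinj : InjOn G U) {a : E}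
    (ha : a ∈ U) : Function.Injective (fderiv ℂ G a) :=
  osgoodDim _ E F rfl hEF.symm G U hU hG hinj a ha

/-- If `G` is injective and holomorphic on `U` and `G ∘ h` is holomorphic on `O`, `h` mapping `O`
to `U`, then `h` is holomorphic on `O`. -/
theorem differentiableOn_of_comp {E' : Type*} [NormedAddCommGroup E'] [NormedSpace ℂ E']
    (hEF : Module.finrank ℂ E = Module.finrank ℂ F) {G : E → F}
    {U : Set E} (hU : IsOpen U) (hG : DifferentiableOn ℂ G U) (hinj : InjOn G U)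
    {h : E' → E} {O : Set E'} (hO : IsOpen O) (hmaps : MapsTo h O U)
    (hd : DifferentiableOn ℂ (fun x => G (h x)) O) : DifferentiableOn ℂ h O := by
  intro x hx
  have hx' := hmaps hx
  have hinj' := injective_fderiv_of_injOn hEF hU hG hinj hx'
  set A : E ≃L[ℂ] F := ContinuousLinearEquiv.ofBijective (fderiv ℂ G (h x))
    (LinearMap.ker_eq_bot.2 hinj') (LinearMap.range_eq_top.2
      ((LinearMap.injective_iff_surjective_of_finrank_eq_finrank hEF).1 hinj')) with hA
  have hA' : HasFDerivAt G (A : E →L[ℂ] F) (h x) := by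
    have h1 : (A : E →L[ℂ] F) = fderiv ℂ G (h x) := by
      ext v
      rfl
    rw [h1]
    exact ((hG _ hx').differentiableAt (hU.mem_nhds hx')).hasFDerivAt
  obtain ⟨W, V, χ, hWo, hVo, hWa, hVa, hVU, hW, hV, hχd, -⟩ :=
    exists_local_inverse hU hx' hG A hA'
  have hev : ∀ᶠ y in 𝓝 x, h y = χ (G (h y)) := by
    have h1 : ContinuousAt (fun y => G (h y)) x := (hd.continuousOn).continuousAt (hO.mem_nhds hx)
    filter_upwards [h1.eventually_mem (hWo.mem_nhds hWa), hO.mem_nhds hx] with y hy hyO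
    have h2 := hW _ hy
    exact (hinj h2.2 (hmaps hyO) h2.1).symm
  have h3 : DifferentiableAt ℂ (fun y => χ (G (h y))) x := by
    have h4 : DifferentiableAt ℂ χ (G (h x)) := (hχd _ hWa).differentiableAt (hWo.mem_nhds hWa)
    exact h4.comp x ((hd x hx).differentiableAt (hO.mem_nhds hx))
  exact (h3.congr_of_eventuallyEq hev).differentiableWithinAt

end Pool.Agent.Lib.MP_2306a6_an
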