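import Mathlib

/-!
# Holomorphic maps of several variables are smooth
-/

namespace Pool.Agent.Lib.MP_2306a6_an

open Metric Set Filter Topology MeasureTheory

variable {E F : Type*} [NormedAddCommGroup E] [NormedSpace ℂ E] [FiniteDimensional ℂ E]
  [NormedAddCommGroup F] [NormedSpace ℂ F] [CompleteSpace F]

omit [FiniteDimensional ℂ E] in
/-- Cauchy formula for the directional derivative. -/
lemma fderiv_apply_eq_circleIntegral {f : E → F} {z v : E}
    (hf : ∀ ζ : ℂ, ‖ζ‖ ≤ 1 → DifferentiableAt ℂ f (z + ζ • v)) :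
    (2 * Real.pi * Complex.I : ℂ) • fderiv ℂ f z v =
      ∮ ζ in C(0, 1), (1 / ζ ^ 2) • f (z + ζ • v) := by
  have hlin : ∀ ζ : ℂ, HasDerivAt (fun ζ : ℂ => z + ζ • v) v ζ := by
    intro ζ
    simpa using ((hasDerivAt_id ζ).smul_const v).const_add z
  have hd : DifferentiableOn ℂ (fun ζ : ℂ => f (z + ζ • v)) (closedBall 0 1) := by
    intro ζ hζ
    have h1 := hf ζ (by simpa using hζ)
    exact (h1.comp ζ (hlin ζ).differentiableAt).differentiableWithinAt
  have h := hd.deriv_eq_smul_circleIntegral one_pos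
  have h0 : deriv (fun ζ : ℂ => f (z + ζ • v)) 0 = fderiv ℂ f z v := by
    have h1 := hf 0 (by simp)
    have h2 : HasFDerivAt f (fderiv ℂ f (z + (0 : ℂ) • v)) (z + (0 : ℂ) • v) := h1.hasFDerivAt
    have h3 := h2.comp_hasDerivAt (0 : ℂ) (hlin 0)
    have h4 : deriv (fun ζ : ℂ => f (z + ζ • v)) 0 = fderiv ℂ f (z + (0 : ℂ) • v) v := h3.deriv
    rw [h4, zero_smul, add_zero]
  rw [h0] at h
  rw [← h]
  simp

omit [FiniteDimensional ℂ E] [CompleteSpace F] in
/-- Local bound for the derivative of a holomorphic map. -/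
lemma norm_fderiv_le_of_bound {f : E → F} {z : E} {r C : ℝ} (hr : 0 < r)
    (hf : DifferentiableOn ℂ f (ball z r)) (hC : ∀ w ∈ ball z r, ‖f w‖ ≤ C) :
    ‖fderiv ℂ f z‖ ≤ 2 * C / r := by
  apply Complex.norm_fderiv_le_div_of_mapsTo_ball hf _ hr
  intro w hw
  rw [mem_closedBall, dist_eq_norm]
  have h1 := hC w hw
  have h2 := hC z (mem_ball_self hr)
  calc ‖f w - f z‖ ≤ ‖f w‖ + ‖f z‖ := norm_sub_le _ _
    _ ≤ 2 * C := by linarith

omit [CompleteSpace F] in
lemma exists_bounds {f : E → F} {U : Set E} (hU : IsOpen U) (hf : DifferentiableOn ℂ f U)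
    {z : E} (hz : z ∈ U) : ∃ r > 0, ∃ C : ℝ, ball z (3 * r) ⊆ U ∧
      ∀ w ∈ ball z (2 * r), ‖fderiv ℂ f w‖ ≤ C := by
  have : ProperSpace E := FiniteDimensional.proper ℂ E
  obtain ⟨ε, hε, hεU⟩ := Metric.isOpen_iff.1 hU z hz
  have hcomp : IsCompact (closedBall z (ε / 2)) := isCompact_closedBall z (ε / 2)
  have hsub : closedBall z (ε / 2) ⊆ U := (closedBall_subset_ball (by linarith)).trans hεU
  obtain ⟨C, hC⟩ := hcomp.exists_bound_of_continuousOn (hf.continuousOn.mono hsub)
  refine ⟨ε / 6, by positivity, 2 * C / (ε / 6), ?_, ?_⟩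
  · intro w hw
    apply hεU
    rw [mem_ball] at hw ⊢
    linarith
  · intro w hw
    have hw' : ball w (ε / 6) ⊆ closedBall z (ε / 2) := by
      intro x hx
      rw [mem_ball] at hw hx
      rw [mem_closedBall]
      calc dist x z ≤ dist x w + dist w z := dist_triangle _ _ _
        _ ≤ ε / 2 := by linarith
    exact norm_fderiv_le_of_bound (by positivity) (hf.mono (hw'.trans hsub))
      (fun x hx => hC x (hw' hx))

/-- The derivative of a holomorphic map is continuous. -/
lemma continuousOn_fderiv_apply {f : E → F} {U : Set E} (hU : IsOpen U)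
    (hf : DifferentiableOn ℂ f U) (v : E) : ContinuousOn (fun z => fderiv ℂ f z v) U := by
  intro z hz
  apply ContinuousAt.continuousWithinAt
  obtain ⟨r, hr, C, hrU, hC⟩ := exists_bounds hU hf hz
  -- scale the vector
  obtain ⟨c, hc, hcv⟩ : ∃ c : ℝ, 0 < c ∧ ‖(c : ℂ) • v‖ ≤ r := by
    refine ⟨r / (‖v‖ + 1), by positivity, ?_⟩
    rw [norm_smul, Complex.norm_real, Real.norm_of_nonneg (by positivity)]
    rw [div_mul_eq_mul_div, div_le_iff₀ (by positivity)]
    nlinarith [norm_nonneg v]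
  set w : E := (c : ℂ) • v with hw
  have hLip : ∀ x ∈ ball z (2 * r), ∀ y ∈ ball z (2 * r), ‖f y - f x‖ ≤ C * ‖y - x‖ := by
    intro x hx y hy
    refine (convex_ball z (2 * r)).norm_image_sub_le_of_norm_fderiv_le (𝕜 := ℂ) ?_ hC hx hy
    intro x hx
    exact (hf x (hrU (ball_subset_ball (by linarith) hx))).differentiableAt
      (hU.mem_nhds (hrU (ball_subset_ball (by linarith) hx)))
  have hmem : ∀ x ∈ ball z r, ∀ ζ : ℂ, ‖ζ‖ ≤ 1 → x + ζ • w ∈ ball z (2 * r) := by
    intro x hx ζ hζ
    rw [mem_ball, dist_eq_norm] at hx ⊢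
    calc ‖x + ζ • w - z‖ = ‖(x - z) + ζ • w‖ := by congr 1; abel
      _ ≤ ‖x - z‖ + ‖ζ • w‖ := norm_add_le _ _
      _ ≤ ‖x - z‖ + 1 * r := by
        gcongr
        rw [norm_smul]
        exact mul_le_mul hζ hcv (norm_nonneg _) zero_le_one
      _ < 2 * r := by linarith
  have hdiff : ∀ x ∈ ball z r, ∀ ζ : ℂ, ‖ζ‖ ≤ 1 → DifferentiableAt ℂ f (x + ζ • w) := by
    intro x hx ζ hζ
    have h1 := hrU (ball_subset_ball (by linarith) (hmem x hx ζ hζ))
    exact (hf _ h1).differentiableAt (hU.mem_nhds h1)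
  have key : ∀ x ∈ ball z r, ‖fderiv ℂ f x w - fderiv ℂ f z w‖ ≤ C * ‖x - z‖ := by
    intro x hx
    have hz' : z ∈ ball z r := mem_ball_self hr
    have h1 := fderiv_apply_eq_circleIntegral (hdiff x hx)
    have h2 := fderiv_apply_eq_circleIntegral (hdiff z hz')
    have hcint : ∀ y ∈ ball z r, CircleIntegrable (fun ζ : ℂ => (1 / ζ ^ 2) • f (y + ζ • w)) 0 1 := by
      intro y hy
      apply ContinuousOn.circleIntegrable zero_le_one
      intro ζ hζ
      have hζ1 : ‖ζ‖ = 1 := by simpa using hζ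
      have hζ0 : ζ ≠ 0 := by
        rintro rfl
        simp at hζ1
      apply ContinuousAt.continuousWithinAt
      apply ContinuousAt.smul
      · exact ContinuousAt.div continuousAt_const (by fun_prop) (pow_ne_zero _ hζ0)
      · have h3 := (hdiff y hy ζ hζ1.le).continuousAt
        exact ContinuousAt.comp (f := fun ζ : ℂ => y + ζ • w) h3 (by fun_prop)
    have h3 : (2 * Real.pi * Complex.I : ℂ) • (fderiv ℂ f x w - fderiv ℂ f z w) =
        ∮ ζ in C(0, 1), (1 / ζ ^ 2) • (f (x + ζ • w) - f (z + ζ • w)) := by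
      rw [smul_sub, h1, h2, ← circleIntegral.integral_sub (hcint x hx) (hcint z hz')]
      simp only [smul_sub]
    have h4 : ‖∮ ζ in C(0, 1), (1 / ζ ^ 2) • (f (x + ζ • w) - f (z + ζ • w))‖ ≤
        2 * Real.pi * 1 * (C * ‖x - z‖) := by
      apply circleIntegral.norm_integral_le_of_norm_le_const zero_le_one
      intro ζ hζ
      have hζ1 : ‖ζ‖ = 1 := by simpa using hζ
      rw [norm_smul, norm_div, norm_pow, hζ1]
      simp only [norm_one, one_pow, div_one, one_mul]
      have h5 := hLip _ (hmem z hz' ζ hζ1.le) _ (hmem x hx ζ hζ1.le)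
      have h6 : x + ζ • w - (z + ζ • w) = x - z := by abel
      rwa [h6] at h5
    rw [← h3, norm_smul] at h4
    have h7 : ‖(2 * Real.pi * Complex.I : ℂ)‖ = 2 * Real.pi := by
      simp [abs_of_pos Real.pi_pos]
    rw [h7, mul_one] at h4
    exact le_of_mul_le_mul_left h4 (by positivity)
  have hcont : ContinuousAt (fun x => fderiv ℂ f x w) z := by
    rw [ContinuousAt, tendsto_iff_norm_sub_tendsto_zero]
    refine squeeze_zero' (Eventually.of_forall fun _ => norm_nonneg _)
      (g := fun x => C * ‖x - z‖) ?_ ?_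
    · filter_upwards [ball_mem_nhds z hr] with x hx
      exact key x hx
    · have : Tendsto (fun x : E => C * ‖x - z‖) (𝓝 z) (𝓝 (C * ‖z - z‖)) := by
        apply Continuous.tendsto
        fun_prop
      simpa using this
  have heq : (fun x => fderiv ℂ f x v) = fun x => ((c : ℂ)⁻¹) • fderiv ℂ f x w := by
    funext x
    rw [hw, map_smul, smul_smul, inv_mul_cancel₀, one_smul]
    exact_mod_cast hc.ne'
  rw [heq]
  exact hcont.const_smul _

/-- The directional derivatives of a holomorphic map are holomorphic. -/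
lemma differentiableOn_fderiv_apply {f : E → F} {U : Set E} (hU : IsOpen U)
    (hf : DifferentiableOn ℂ f U) (v : E) :
    DifferentiableOn ℂ (fun z => fderiv ℂ f z v) U := by
  intro z hz
  apply DifferentiableAt.differentiableWithinAt
  obtain ⟨r, hr, C, hrU, hC⟩ := exists_bounds hU hf hz
  have hfc : ContinuousOn (fderiv ℂ f) U := by
    rw [continuousOn_clm_apply]
    exact fun y => continuousOn_fderiv_apply hU hf y
  obtain ⟨c, hc, hcv⟩ : ∃ c : ℝ, 0 < c ∧ ‖(c : ℂ) • v‖ ≤ r := by
    refine ⟨r / (‖v‖ + 1), by positivity, ?_⟩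
    rw [norm_smul, Complex.norm_real, Real.norm_of_nonneg (by positivity)]
    rw [div_mul_eq_mul_div, div_le_iff₀ (by positivity)]
    nlinarith [norm_nonneg v]
  set w : E := (c : ℂ) • v with hw
  have hmem : ∀ x ∈ ball z r, ∀ ζ : ℂ, ‖ζ‖ ≤ 1 → x + ζ • w ∈ ball z (2 * r) := by
    intro x hx ζ hζ
    rw [mem_ball, dist_eq_norm] at hx ⊢
    calc ‖x + ζ • w - z‖ = ‖(x - z) + ζ • w‖ := by congr 1; abel
      _ ≤ ‖x - z‖ + ‖ζ • w‖ := norm_add_le _ _
      _ ≤ ‖x - z‖ + 1 * r := by
        gcongr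
        rw [norm_smul]
        exact mul_le_mul hζ hcv (norm_nonneg _) zero_le_one
      _ < 2 * r := by linarith
  have hmemU : ∀ x ∈ ball z r, ∀ ζ : ℂ, ‖ζ‖ ≤ 1 → x + ζ • w ∈ U := fun x hx ζ hζ =>
    hrU (ball_subset_ball (by linarith) (hmem x hx ζ hζ))
  have hdiff : ∀ x ∈ ball z r, ∀ ζ : ℂ, ‖ζ‖ ≤ 1 → DifferentiableAt ℂ f (x + ζ • w) := by
    intro x hx ζ hζ
    exact (hf _ (hmemU x hx ζ hζ)).differentiableAt (hU.mem_nhds (hmemU x hx ζ hζ))
  set k : ℝ → ℂ := fun θ => deriv (circleMap 0 1) θ * (1 / (circleMap 0 1 θ) ^ 2) with hk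
  have hnorm : ∀ θ, ‖circleMap 0 1 θ‖ = 1 := by
    intro θ
    simp
  have hkn : ∀ θ, ‖k θ‖ = 1 := by
    intro θ
    rw [hk]
    simp only [norm_mul, norm_div, norm_pow, hnorm]
    rw [deriv_circleMap]
    simp
  have hkc : Continuous k := by
    rw [hk]
    have h1 : deriv (circleMap 0 1) = fun θ => circleMap 0 1 θ * Complex.I := by
      funext θ
      rw [deriv_circleMap]
    rw [h1]
    apply Continuous.mul
    · exact (continuous_circleMap 0 1).mul continuous_const
    · apply Continuous.div continuous_const ((continuous_circleMap 0 1).pow 2)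
      intro θ
      apply pow_ne_zero
      intro h0
      have := hnorm θ
      rw [h0] at this
      simp at this
  have hcontF : ∀ x ∈ ball z r,
      Continuous (fun θ : ℝ => k θ • f (x + circleMap 0 1 θ • w)) := by
    intro x hx
    apply hkc.smul
    rw [continuous_iff_continuousAt]
    intro θ
    have h3 := (hdiff x hx (circleMap 0 1 θ) (hnorm θ).le).continuousAt
    exact ContinuousAt.comp (f := fun θ : ℝ => x + circleMap 0 1 θ • w) h3
      ((continuous_const.add ((continuous_circleMap 0 1).smul continuous_const)).continuousAt)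
  have hcontF' : Continuous (fun θ : ℝ => k θ • fderiv ℂ f (z + circleMap 0 1 θ • w)) := by
    apply hkc.smul
    rw [continuous_iff_continuousAt]
    intro θ
    have h3 : ContinuousAt (fderiv ℂ f) (z + circleMap 0 1 θ • w) :=
      hfc.continuousAt (hU.mem_nhds (hmemU z (mem_ball_self hr) _ (hnorm θ).le))
    exact ContinuousAt.comp (f := fun θ : ℝ => z + circleMap 0 1 θ • w) h3
      ((continuous_const.add ((continuous_circleMap 0 1).smul continuous_const)).continuousAt)
  have hmain : HasFDerivAt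
      (fun x => ∫ θ in (0 : ℝ)..(2 * Real.pi), k θ • f (x + circleMap 0 1 θ • w))
      (∫ θ in (0 : ℝ)..(2 * Real.pi), k θ • fderiv ℂ f (z + circleMap 0 1 θ • w)) z := by
    apply intervalIntegral.hasFDerivAt_integral_of_dominated_of_fderiv_le (𝕜 := ℂ)
      (F' := fun x θ => k θ • fderiv ℂ f (x + circleMap 0 1 θ • w))
      (bound := fun _ => C) (s := ball z r) (ball_mem_nhds z hr)
    · filter_upwards [ball_mem_nhds z hr] with x hx
      exact (hcontF x hx).aestronglyMeasurable
    · exact (hcontF z (mem_ball_self hr)).intervalIntegrable _ _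
    · exact hcontF'.aestronglyMeasurable
    · refine Eventually.of_forall fun θ _ x hx => ?_
      rw [norm_smul, hkn, one_mul]
      exact hC _ (hmem x hx _ (hnorm θ).le)
    · exact intervalIntegrable_const
    · refine Eventually.of_forall fun θ _ x hx => ?_
      have h1 := (hdiff x hx _ (hnorm θ).le).hasFDerivAt
      have h2 : HasFDerivAt (fun x : E => x + circleMap 0 1 θ • w)
          (ContinuousLinearMap.id ℂ E) x := (hasFDerivAt_id x).add_const _
      have h3 := h1.comp x h2
      rw [ContinuousLinearMap.comp_id] at h3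
      exact h3.const_smul (k θ)
  have heq : (fun x => fderiv ℂ f x v) =ᶠ[𝓝 z] fun x => ((c : ℂ)⁻¹) •
      ((2 * Real.pi * Complex.I : ℂ)⁻¹ •
        ∫ θ in (0 : ℝ)..(2 * Real.pi), k θ • f (x + circleMap 0 1 θ • w)) := by
    filter_upwards [ball_mem_nhds z hr] with x hx
    have h1 := fderiv_apply_eq_circleIntegral (hdiff x hx)
    have h2 : (∮ ζ in C(0, 1), (1 / ζ ^ 2) • f (x + ζ • w)) =
        ∫ θ in (0 : ℝ)..(2 * Real.pi), k θ • f (x + circleMap 0 1 θ • w) := by
      simp only [circleIntegral, hk, smul_smul]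
    rw [← h2, ← h1, smul_smul (2 * Real.pi * Complex.I : ℂ)⁻¹,
      inv_mul_cancel₀ Complex.two_pi_I_ne_zero, one_smul, hw, map_smul, smul_smul,
      inv_mul_cancel₀ (by exact_mod_cast hc.ne'), one_smul]
  exact ((hmain.differentiableAt.const_smul _).const_smul _).congr_of_eventuallyEq heq

/-- A holomorphic map on an open set of a finite-dimensional space is smooth. -/
theorem contDiffOn_of_differentiableOn {U : Set E} (hU : IsOpen U) (n : ℕ) :
    ∀ {f : E → F}, DifferentiableOn ℂ f U → ContDiffOn ℂ n f U := by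
  induction n with
  | zero =>
    intro f hf
    simpa [contDiffOn_zero] using hf.continuousOn
  | succ n ih =>
    intro f hf
    have h1 : ContDiffOn ℂ ((n : WithTop ℕ∞) + 1) f U := by
      rw [contDiffOn_succ_iff_fderiv_of_isOpen hU]
      refine ⟨hf, by simp, ?_⟩
      rw [contDiffOn_clm_apply]
      intro v
      exact ih (differentiableOn_fderiv_apply hU hf v)
    exact_mod_cast h1

end Pool.Agent.Lib.MP_2306a6_an
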